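import Pool.Agent.Y895.PM.G4

set_option autoImplicit false

/-!
# Multiples of `b ^ m` near a given number of size `b ^ p`
-/

open Filter Topology

namespace Pool.Agent.Y895.PM

/-- digits: the upper part is unchanged -/
lemma upper_digits {b m k : ℕ} (hb : 2 ≤ b) {t : ℝ} (h0 : 0 ≤ t) (h1 : t < 1) :
    (b ^ m * k + ⌊(b : ℝ) ^ m * t⌋₊) / b ^ m = k := by
  have hpos : 0 < b ^ m := by positivity
  have hx : ⌊(b : ℝ) ^ m * t⌋₊ < b ^ m := by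
    rw [Nat.floor_lt (by positivity)]
    push_cast
    have : (0 : ℝ) < (b : ℝ) ^ m := by positivity
    nlinarith
  rw [Nat.mul_add_div hpos, Nat.div_eq_of_lt hx, add_zero]

/-- truncation of a sequence of size `b ^ p` -/
lemma trunc_adm {b : ℕ} (hb : 2 ≤ b) {κ c C : ℝ} (hc : 0 < c) {Q m : ℕ → ℕ}
    (hQ : ∀ᶠ p : ℕ in atTop, c * (b : ℝ) ^ p ≤ Q p ∧ (Q p : ℝ) ≤ C * (b : ℝ) ^ p)
    (hm : Tendsto (fun p => p - m p) atTop atTop)
    (hk : ∀ᶠ p : ℕ in atTop, (p : ℝ) - κ * p / Real.log p ≤ m p) :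
    ∀ᶠ p : ℕ in atTop, c / 2 * (b : ℝ) ^ p ≤ (b ^ m p * (Q p / b ^ m p) : ℕ) ∧
      ((b ^ m p * (Q p / b ^ m p) : ℕ) : ℝ) ≤ C * (b : ℝ) ^ p ∧
      b ^ m p ≤ b ^ m p * (Q p / b ^ m p) ∧ (p : ℝ) - κ * p / Real.log p ≤ m p := by
  have hb1 : (1 : ℝ) < b := by exact_mod_cast (by omega : 1 < b)
  have hb0 : (0 : ℝ) < b := by linarith
  obtain ⟨K, hK⟩ : ∃ K : ℕ, 2 / c ≤ (b : ℝ) ^ K := by
    obtain ⟨K, hK⟩ := pow_unbounded_of_one_lt (2 / c) hb1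
    exact ⟨K, hK.le⟩
  filter_upwards [hQ, hk, hm.eventually_ge_atTop (K + 1)] with p hp hk hK'
  obtain ⟨q1, q2⟩ := hp
  have hmp : m p + K ≤ p := by omega
  have hpos : 0 < b ^ m p := by positivity
  have hposR : (0 : ℝ) < (b : ℝ) ^ m p := by positivity
  have h1 : (b : ℝ) ^ m p * (2 / c) ≤ (b : ℝ) ^ p := by
    calc (b : ℝ) ^ m p * (2 / c) ≤ (b : ℝ) ^ m p * (b : ℝ) ^ K := by gcongr
      _ = (b : ℝ) ^ (m p + K) := (pow_add _ _ _).symm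
      _ ≤ (b : ℝ) ^ p := pow_le_pow_right₀ hb1.le hmp
  have h2 : (b : ℝ) ^ m p ≤ c / 2 * (b : ℝ) ^ p := by
    have e : (b : ℝ) ^ m p = c / 2 * ((b : ℝ) ^ m p * (2 / c)) := by field_simp
    rw [e]
    gcongr
  have h3 : Q p < b ^ m p * (Q p / b ^ m p) + b ^ m p := by
    have := Nat.div_add_mod (Q p) (b ^ m p)
    have h4 := Nat.mod_lt (Q p) hpos
    omega
  have h3' : (Q p : ℝ) ≤ ((b ^ m p * (Q p / b ^ m p) : ℕ) : ℝ) + (b : ℝ) ^ m p := by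
    exact_mod_cast h3.le
  have h5 : b ^ m p * (Q p / b ^ m p) ≤ Q p := Nat.mul_div_le _ _
  have h5' : ((b ^ m p * (Q p / b ^ m p) : ℕ) : ℝ) ≤ Q p := by exact_mod_cast h5
  refine ⟨by linarith, by linarith, ?_, hk⟩
  refine Nat.le_mul_of_pos_right _ (Nat.div_pos ?_ hpos)
  have h6 : ((b ^ m p : ℕ) : ℝ) ≤ Q p := by
    push_cast
    have : 0 < c / 2 * (b : ℝ) ^ p := by positivity
    linarith
  exact_mod_cast h6

/-- **The law for truncated sequences.** -/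
theorem pt_trunc {b : ℕ} (hb : 2 ≤ b) : ∃ κ : ℝ, 0 < κ ∧ ∀ (c C : ℝ), 0 < c → 0 < C → ∀ Q m : ℕ → ℕ,
    (∀ᶠ p : ℕ in atTop, c * (b : ℝ) ^ p ≤ Q p ∧ (Q p : ℝ) ≤ C * (b : ℝ) ^ p) →
    (∀ᶠ p in atTop, m p ≤ m (p + 1)) → Tendsto (fun p => p - m p) atTop atTop →
    (∀ᶠ p : ℕ in atTop, (p : ℝ) - κ * p / Real.log p ≤ m p) →
    ∀ S : Set ℕ, ∀ᵐ t : ℝ, 0 ≤ t → t < 1 →
      Pool.Agent.TH888.R.Pt (fun p => b ^ m p * (Q p / b ^ m p) + ⌊(b : ℝ) ^ m p * t⌋₊)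
        (Real.exp Real.eulerMascheroniConstant / Real.log b) S := by
  obtain ⟨κ, hκ, h⟩ := pt_pm hb
  exact ⟨κ, hκ, fun c C hc hC Q m hQ hm ht hk S =>
    h (c / 2) C (by positivity) hC _ m hm (trunc_adm hb hc hQ ht hk) S⟩

/-- `mfree` leaves more and more prescribed digits -/
lemma mfree_tendsto {κ : ℝ} (hκ : 0 < κ) : Tendsto (fun p => p - mfree κ p) atTop atTop := by
  have h1 := Pool.Agent.TH888.R.q_div_log hκ
  rw [tendsto_atTop]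
  intro k
  have h2 : ∀ᶠ p : ℕ in atTop, (k : ℝ) ≤ κ * p / Real.log p := h1.eventually_ge_atTop _
  have h3 : ∀ᶠ p : ℕ in atTop, κ ≤ Real.log p :=
    (Real.tendsto_log_atTop.comp tendsto_natCast_atTop_atTop).eventually_ge_atTop _
  filter_upwards [h2, h3] with p hp h3
  have h4 : k ≤ ⌊κ * p / Real.log p⌋₊ := Nat.le_floor hp
  have h6 : κ * p / Real.log p ≤ p := by
    rw [div_le_iff₀ (by linarith)]
    have : (0 : ℝ) ≤ p := by positivity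
    nlinarith
  have h5 : ⌊κ * p / Real.log p⌋₊ ≤ p := by
    have := Nat.floor_mono h6
    rwa [Nat.floor_natCast] at this
  unfold mfree
  omega

end Pool.Agent.Y895.PM
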