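import Pool.Agent.Y895.PM.A2
import Pool.Agent.W66.QD

set_option autoImplicit false

/-!
# The density of the integers with prime rough part in every very short interval
-/

open Filter Topology Set MeasureTheory Metric
open scoped Real

namespace Pool.Agent.Y895.PM

open Pool.Agent.W66
open Pool.Agent.H305R2 (ff NN roughPart SM SMz VV ZZ measurable_ff ff_nonneg ff_le_one LL)

/-- one smooth part -/
theorem PP_pt : ∃ C : ℝ, 0 < C ∧ ∀ (h z : ℝ) (N : ℕ), 0 < h → h ≤ 1 → 2 ≤ z →
    Real.exp (z + 1) ≤ N → ∀ E : ℝ, |TT h N z - 1| ≤ E →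
    |PP h N z - 1 / z| ≤ h * (1 + 32 * Real.exp (-z) / h ^ 2) + C / h * Real.exp (-(z / 2)) + E := by
  obtain ⟨C, hC, hPP⟩ := PP_approx
  refine ⟨C, hC, fun h z N hh hh1 hz hN E hE => ?_⟩
  have hz0 : 0 < z := by linarith
  have h2 := hPP h z N hh hh1 hz (by
    refine le_trans (Real.exp_le_exp.2 ?_) hN
    linarith)
  have h3 : PP h N z - 1 / z = (PP h N z - TT h N z / z) + (TT h N z - 1) / z := by ring
  have h4 : |(TT h N z - 1) / z| ≤ |TT h N z - 1| := by
    rw [abs_div, abs_of_pos hz0]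
    exact div_le_self (abs_nonneg _) (by linarith)
  rw [h3]
  refine (abs_add_le _ _).trans ?_
  linarith

/-- the smooth parts up to `S` -/
theorem RA_pt : ∃ C : ℝ, 0 < C ∧ ∀ (q : ℕ) (h S y : ℝ) (N : ℕ), 0 < h → h ≤ 1 → 1 ≤ S →
    2 ≤ y - Real.log S → Real.exp (y + 3) ≤ N → ∀ E : ℝ, 0 ≤ E →
    (∀ z : ℝ, y - Real.log S ≤ z → z ≤ y → ∀ N' : ℕ, Real.exp (z + 1) ≤ N' →
      |TT h N' z - 1| ≤ E) →
    |RA q h S N y - mt q S y| ≤ VV q *
      (h * (1 + 32 * Real.exp (-(y - Real.log S)) / h ^ 2) +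
      C / h * Real.exp (-((y - Real.log S) / 2)) + E) := by
  obtain ⟨C, hC, hPP⟩ := PP_pt
  refine ⟨C, hC, fun q h S y N hh hh1 hS hY hN E hE hTT => ?_⟩
  have hmem : ∀ s ∈ SMz q S, (0 : ℝ) < s ∧ 0 ≤ Real.log s ∧ Real.log s ≤ Real.log S := by
    intro s hs
    have hs1 := (Pool.Agent.H305R2.mem_SMz (by linarith)).1 hs
    have hs0 : 0 < s := Pool.Agent.H305R2.SM_pos hs1.1
    have hs0' : (0 : ℝ) < s := by exact_mod_cast hs0
    exact ⟨hs0', Real.log_nonneg (by exact_mod_cast hs0), Real.log_le_log hs0' hs1.2⟩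
  set D := h * (1 + 32 * Real.exp (-(y - Real.log S)) / h ^ 2) +
      C / h * Real.exp (-((y - Real.log S) / 2)) + E with hD
  have hD0 : 0 ≤ D := by positivity
  have h1 : |RA q h S N y - mt q S y| ≤ ∑ s ∈ SMz q S, (s : ℝ)⁻¹ * D := by
    unfold RA Pool.Agent.W66.mt
    rw [← Finset.sum_sub_distrib]
    refine (Finset.abs_sum_le_sum_abs _ _).trans (Finset.sum_le_sum fun s hs => ?_)
    obtain ⟨h1, h2, h3⟩ := hmem s hs
    have h4 : 0 < y - Real.log s := by linarith
    have e : 1 / (s : ℝ) * PP h (N / s) (y - Real.log s) - 1 / (s * (y - Real.log s)) =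
        1 / (s : ℝ) * (PP h (N / s) (y - Real.log s) - 1 / (y - Real.log s)) := by
      field_simp
    rw [e, abs_mul, abs_of_pos (by positivity : 0 < 1 / (s : ℝ)), one_div]
    apply mul_le_mul_of_nonneg_left _ (by positivity)
    have hNs : Real.exp (y - Real.log s + 2) ≤ ((N / s : ℕ) : ℝ) := by
      have h4 : Real.exp (y - Real.log s + 2) + 1 ≤ (N : ℝ) / s := by
        have h5 : Real.exp (y + 3 - Real.log s) ≤ (N : ℝ) / s := by
          rw [Real.exp_sub, Real.exp_log h1]
          gcongr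
        refine le_trans ?_ h5
        have e : Real.exp (y + 3 - Real.log s) = Real.exp (y - Real.log s + 2) * Real.exp 1 := by
          rw [← Real.exp_add]; congr 1; ring
        rw [e]
        have h6 : 1 ≤ Real.exp (y - Real.log s + 2) := Real.one_le_exp (by linarith)
        have h7 : (2 : ℝ) ≤ Real.exp 1 := by linarith [Real.exp_one_gt_d9]
        have h8 := mul_le_mul_of_nonneg_left h7 (Real.exp_pos (y - Real.log s + 2)).le
        linarith
      have hs0 : 0 < s := by exact_mod_cast h1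
      have h5 : (N : ℝ) / s < ((N / s : ℕ) : ℝ) + 1 := by
        rw [div_lt_iff₀ h1]
        exact_mod_cast Nat.lt_mul_of_div_lt (Nat.lt_succ_self _) hs0
      linarith
    have hNs' : Real.exp (y - Real.log s + 1) ≤ ((N / s : ℕ) : ℝ) :=
      (Real.exp_le_exp.2 (by linarith)).trans hNs
    have h4 := hPP h (y - Real.log s) (N / s) hh hh1 (by linarith) hNs' E
      (hTT (y - Real.log s) (by linarith) (by linarith) (N / s) hNs')
    refine h4.trans ?_
    rw [hD]
    have h5 : Real.exp (-(y - Real.log s)) ≤ Real.exp (-(y - Real.log S)) :=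
      Real.exp_le_exp.2 (by linarith)
    have h6 : Real.exp (-((y - Real.log s) / 2)) ≤ Real.exp (-((y - Real.log S) / 2)) :=
      Real.exp_le_exp.2 (by linarith)
    gcongr
  refine h1.trans ?_
  rw [← Finset.sum_mul]
  apply mul_le_mul_of_nonneg_right _ hD0
  exact Pool.Agent.H305R2.sum_le_VV q _ fun n hn =>
    ((Pool.Agent.H305R2.mem_SMz (by linarith)).1 hn).1

theorem RB_pt (q : ℕ) {h S : ℝ} (hh : 0 < h) (hh1 : h ≤ 1) (hS : 0 < S) (N : ℕ) (y : ℝ) :
    RB q h S N y ≤ 10 / h * (S ^ (-(1 / 2) : ℝ) * ZZ q) := by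
  unfold RB
  have h1 : ∀ s ∈ (SMz q N).filter (fun s : ℕ => S < s), 1 / (s : ℝ) *
      ∑ l ∈ (Finset.Ioc 0 (N / s)).filter (fun l => l.Prime ∧ q < l),
      1 / (l : ℝ) * tri h (y - Real.log s - Real.log l) ≤ 10 / h * (s : ℝ)⁻¹ := by
    intro s _
    have h2 : ∀ l ∈ (Finset.Ioc 0 (N / s)).filter (fun l => l.Prime ∧ q < l),
        1 / (l : ℝ) * tri h (y - Real.log s - Real.log l) ≤
        if y - Real.log s - 1 ≤ Real.log l ∧ Real.log l ≤ y - Real.log s + 3 then 1 / h * (1 / (l : ℝ))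
          else 0 := by
      intro l _
      split_ifs with h3
      · calc 1 / (l : ℝ) * tri h (y - Real.log s - Real.log l) ≤ 1 / (l : ℝ) * (1 / h) := by
              gcongr
              exact tri_le hh _
          _ = _ := by ring
      · rw [tri_zero_of hh, mul_zero]
        by_contra hc
        rw [not_le, abs_lt] at hc
        apply h3
        exact ⟨by linarith [hc.2], by linarith [hc.1]⟩
    have h3 : ∑ l ∈ (Finset.Ioc 0 (N / s)).filter (fun l => l.Prime ∧ q < l),
        1 / (l : ℝ) * tri h (y - Real.log s - Real.log l) ≤ 1 / h * 10 := by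
      refine (Finset.sum_le_sum h2).trans ?_
      rw [← Finset.sum_filter, ← Finset.mul_sum]
      refine mul_le_mul_of_nonneg_left ?_ (by positivity)
      refine recip_window (y - Real.log s - 1) _ ?_
      intro m hm
      rw [Finset.mem_filter, Finset.mem_filter, Finset.mem_Ioc] at hm
      exact ⟨hm.1.1.1, hm.2.1, by linarith [hm.2.2]⟩
    calc _ ≤ 1 / (s : ℝ) * (1 / h * 10) := by gcongr
      _ = _ := by ring
  refine (Finset.sum_le_sum h1).trans ?_
  rw [← Finset.mul_sum]
  apply mul_le_mul_of_nonneg_left _ (by positivity)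
  refine Pool.Agent.H305R2.tail_le q hS _ ?_
  intro n hn
  rw [Finset.mem_filter, Pool.Agent.H305R2.mem_SMz (by positivity)] at hn
  exact ⟨hn.1.1, hn.2.le⟩

/-- the smoothed indicator at every point -/
theorem cv_pt {c1 : ℝ} (hc1 : 0 < c1) : ∃ cc K : ℝ, 0 < cc ∧ 0 < K ∧ ∃ P : ℕ, ∀ q ≥ P,
    ∀ Y : ℝ, c1 * q ≤ Y → (√Y ≤ cc / 2 * Y / Real.log Y ∧ Real.exp (-√Y) ≤ 1 / Y ^ 2 ∧ 8 ≤ Y ∧
      1 ≤ Real.log Y) ∧
      ∃ μ : ℝ, ∀ y : ℝ, Y ≤ y → y ≤ Y + 2 → |cv q (hs cc Y) y - μ| ≤ K * (Real.log q / q ^ 2) := by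
  obtain ⟨c0, Z0, hc0, hZ0, hKT⟩ := KTP 3
  obtain ⟨C, hC, hRA⟩ := RA_pt
  set cc := c0 / 4 with hcc
  have hcc0 : 0 < cc := by positivity
  obtain ⟨Y1, hY1⟩ := (ev_Y (cc / 2) C (by positivity) hC).exists_forall_of_atTop
  obtain ⟨Y2, hY2⟩ := (ev_Y cc C hcc0 hC).exists_forall_of_atTop
  -- conditions on `q`
  have hVV : ∀ᶠ p : ℕ in atTop, VV p / Real.log p < Real.exp Real.eulerMascheroniConstant + 1 :=
    Pool.Agent.H305R2.VV_tendsto.eventually_lt_const (by linarith)
  have hZZ := Pool.Agent.H305R2.ZZ_le_exp (c := c1 / 16) (by positivity)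
  have hlin : ∀ᶠ q : ℕ in atTop, max (max Y1 Y2) (2 * Z0) ≤ c1 * q :=
    (tendsto_natCast_atTop_atTop.const_mul_atTop hc1).eventually_ge_atTop _
  have hlogq : ∀ᶠ q : ℕ in atTop, 1 ≤ Real.log q :=
    (Real.tendsto_log_atTop.comp tendsto_natCast_atTop_atTop).eventually_ge_atTop 1
  have hlogq2 : ∀ᶠ q : ℕ in atTop, Real.log q ≤ c1 / 2 * q - 1 := by
    have h1 := (isLittleO_log_rpow_atTop (r := (1 : ℝ)) (by norm_num)).bound (c := c1 / 4)
      (by positivity)
    have h2 : ∀ᶠ x : ℝ in atTop, Real.log x ≤ c1 / 2 * x - 1 := by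
      filter_upwards [h1, eventually_ge_atTop 1, eventually_ge_atTop (4 / c1)] with x hx hx1 hx2
      rw [Real.norm_of_nonneg (Real.log_nonneg hx1), Real.rpow_one,
        Real.norm_of_nonneg (by linarith)] at hx
      have : 1 ≤ c1 / 4 * x := by
        rw [div_le_iff₀ hc1] at hx2
        linarith
      linarith
    exact tendsto_natCast_atTop_atTop.eventually h2
  have hexpq : ∀ᶠ q : ℕ in atTop, 10 * Real.exp (-(c1 / 8 * q)) ≤ 1 / (q : ℝ) ^ 2 := by
    have h0 : Tendsto (fun Z : ℝ => c1 / 8 * Z) atTop atTop :=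
      tendsto_id.const_mul_atTop (by positivity)
    have h1 := (Real.tendsto_pow_mul_exp_neg_atTop_nhds_zero 2).comp h0
    have h2 : ∀ᶠ Z : ℝ in atTop, (c1 / 8 * Z) ^ 2 * Real.exp (-(c1 / 8 * Z)) <
        (c1 / 8) ^ 2 / 10 := h1.eventually_lt_const (by positivity)
    have h3 : ∀ᶠ Z : ℝ in atTop, 10 * Real.exp (-(c1 / 8 * Z)) ≤ 1 / Z ^ 2 := by
      filter_upwards [h2, eventually_gt_atTop 0] with Z h3 h4
      rw [le_div_iff₀ (by positivity)]
      rw [mul_pow, lt_div_iff₀ (by norm_num)] at h3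
      have h5 : (c1 / 8) ^ 2 * (10 * Real.exp (-(c1 / 8 * Z)) * Z ^ 2) < (c1 / 8) ^ 2 * 1 := by
        linarith
      exact (lt_of_mul_lt_mul_left h5 (by positivity)).le
    exact tendsto_natCast_atTop_atTop.eventually h3
  set G1 := Real.exp Real.eulerMascheroniConstant + 1 with hG1
  have hG10 : 0 < G1 := by positivity
  obtain ⟨P, hP⟩ := (hVV.and (hZZ.and (hlin.and (hlogq.and (hlogq2.and (hexpq.and
    (eventually_ge_atTop 1))))))).exists_forall_of_atTop
  refine ⟨cc, (1 + 20 * G1) / c1 ^ 2 + 1, hcc0, by positivity, P, fun q hq Y hYq => ?_⟩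
  obtain ⟨b1, b2, b3, b4, b5, b6, b7⟩ := hP q hq
  obtain ⟨a1, -, -, -, -, -⟩ := hY1 Y (((le_max_left _ _).trans ((le_max_left _ _).trans b3)).trans hYq)
  obtain ⟨-, a2, a3, a4, a5, a6⟩ := hY2 Y (((le_max_right _ _).trans ((le_max_left _ _).trans b3)).trans hYq)
  have hY0 : 0 < Y := by linarith
  have hq0 : (0 : ℝ) < q := by exact_mod_cast b7
  have hlogY : 0 < Real.log Y := by linarith
  have hZ0Y : 2 * Z0 ≤ Y := ((le_max_right _ _).trans b3).trans hYq
  set lam := cc * Y / Real.log Y with hlam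
  set h := hs cc Y with hh
  have hhe : h = Real.exp (-lam) := rfl
  have hh0 : 0 < h := hs_pos _ _
  have hlamhalf : cc / 2 * Y / Real.log Y = lam / 2 := by rw [hlam]; ring
  rw [hlamhalf] at a1
  have hlam1 : √(Y + 4) ≤ lam := by
    have h1 : √(Y + 4) ≤ 2 * √(Y + 2) := by
      rw [show (2 : ℝ) * √(Y + 2) = √(4 * (Y + 2)) by
        rw [Real.sqrt_mul (by norm_num), show (4 : ℝ) = 2 ^ 2 by norm_num,
          Real.sqrt_sq (by norm_num)]]
      exact Real.sqrt_le_sqrt (by linarith)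
    linarith
  have hlam0 : 0 ≤ lam := (Real.sqrt_nonneg _).trans hlam1
  have hlam32 : lam ≤ Y / 32 := by
    rw [hlam, div_le_iff₀ hlogY]
    calc cc * Y = Y / 32 * (32 * cc) := by ring
      _ ≤ Y / 32 * Real.log Y := by gcongr; linarith
  have hhY : h ≤ 1 / Y ^ 2 := by
    rw [hhe]
    have h1 : √Y ≤ lam := (Real.sqrt_le_sqrt (by linarith)).trans hlam1
    exact (Real.exp_le_exp.2 (by linarith)).trans a3
  have hh1 : h ≤ 1 := by rw [hhe]; exact Real.exp_le_one_iff.2 (by linarith)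
  refine ⟨⟨by rw [hlamhalf]; exact (Real.sqrt_le_sqrt (by linarith)).trans a1, a3, a6, by
    have : 0 < cc := hcc0
    linarith⟩, mt q (Real.exp (Y / 2)) Y, fun y hy1 hy2 => ?_⟩
  set S := Real.exp (Y / 2) with hS
  have hlS : Real.log S = Y / 2 := Real.log_exp _
  have hS1 : 1 ≤ S := Real.one_le_exp (by linarith)
  set N := ⌈Real.exp (y + 3)⌉₊ with hN
  have hN1 : Real.exp (y + 3) ≤ N := Nat.le_ceil _
  have hSN : S ≤ N := le_trans (Real.exp_le_exp.2 (by linarith)) hN1
  have hVVq : VV q ≤ G1 * Real.log q := by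
    rw [div_lt_iff₀ (by linarith)] at b1
    exact b1.le
  have hVV0 : 0 ≤ VV q := Pool.Agent.H305R2.VV_nonneg q
  -- the pointwise bound
  have hTT : ∀ z : ℝ, y - Real.log S ≤ z → z ≤ y → ∀ N' : ℕ, Real.exp (z + 1) ≤ N' →
      |TT h N' z - 1| ≤ 8 / Y ^ 3 := by
    intro z hZ1 hZ2 N' hN'
    rw [hlS] at hZ1
    have hZY : Y / 2 ≤ z := by linarith
    have hZpos : 0 < z := by linarith
    have h1 := hKT z lam h (by linarith) hhe
      (le_trans (Real.sqrt_le_sqrt (by linarith)) hlam1) (by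
        have h2 : Real.log z ≤ 2 * Real.log Y := by
          have h3 : z ≤ Y * Y := by
            have h4 : 8 * Y ≤ Y * Y := mul_le_mul_of_nonneg_right a6 hY0.le
            linarith
          calc Real.log z ≤ Real.log (Y * Y) := Real.log_le_log hZpos h3
            _ = 2 * Real.log Y := by rw [Real.log_mul hY0.ne' hY0.ne']; ring
        calc lam * Real.log z ≤ lam * (2 * Real.log Y) := by gcongr
          _ = c0 / 2 * Y := by rw [hlam, hcc]; field_simp; ring
          _ ≤ c0 * z := by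
              have := mul_le_mul_of_nonneg_left hZY hc0.le
              linarith) N' hN'
    refine h1.trans ?_
    have e : 8 / Y ^ 3 = 1 / (Y / 2) ^ 3 := by field_simp; norm_num
    rw [e]
    apply one_div_le_one_div_of_le (by positivity)
    exact pow_le_pow_left₀ (by linarith) hZY 3
  have hA := hRA q h S y N hh0 hh1 hS1 (by rw [hlS]; linarith) hN1 (8 / Y ^ 3) (by positivity) hTT
  have hB := RB_pt q hh0 hh1 (S := S) (by linarith) N y
  have hB0 := RB_nonneg q hh0 S N y
  have hvar : |mt q S y - mt q S Y| ≤ VV q * (2 / (Y - Real.log S) ^ 2) :=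
    mt_var q hS1 (by rw [hlS]; linarith) hy1 hy2
  have hcvRS : |cv q h y - RS q h N y| ≤ 32 * Real.exp (-Y) / h ^ 2 := by
    refine (cv_approx q hh0 hh1 (by linarith) N (le_trans (Real.exp_le_exp.2 (by linarith))
      hN1)).trans ?_
    have : Real.exp (-y) ≤ Real.exp (-Y) := Real.exp_le_exp.2 (by linarith)
    gcongr
  rw [RS_split q hh0 hh1 N hS1 hSN (by rw [hlS]; linarith)] at hcvRS
  -- numerical bounds
  have n1 : 32 * Real.exp (-Y) / h ^ 2 ≤ 1 / Y ^ 2 := by
    refine le_trans ?_ a4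
    rw [hhe, ← Real.exp_nat_mul, mul_div_assoc, ← Real.exp_sub]
    apply mul_le_mul_of_nonneg_left _ (by norm_num)
    apply Real.exp_le_exp.2
    push_cast
    linarith
  have n2 : 2 / (Y - Real.log S) ^ 2 = 8 / Y ^ 2 := by
    rw [hlS]
    field_simp
    norm_num
  have n3 : h * (1 + 32 * Real.exp (-(y - Real.log S)) / h ^ 2) +
      C / h * Real.exp (-((y - Real.log S) / 2)) + 8 / Y ^ 3 ≤ 4 / Y ^ 2 := by
    rw [hlS]
    have e1 : h * (1 + 32 * Real.exp (-(y - Y / 2)) / h ^ 2) =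
        h + 32 * (Real.exp (-(y - Y / 2)) / h) := by field_simp
    rw [e1]
    have m1 : 32 * (Real.exp (-(y - Y / 2)) / h) ≤ 1 / Y ^ 2 := by
      refine le_trans ?_ a4
      rw [hhe, ← Real.exp_sub]
      apply mul_le_mul_of_nonneg_left _ (by norm_num)
      apply Real.exp_le_exp.2
      linarith
    have m2 : C / h * Real.exp (-((y - Y / 2) / 2)) ≤ 1 / Y ^ 2 := by
      refine le_trans ?_ a5
      have : C / h * Real.exp (-((y - Y / 2) / 2)) = C * (Real.exp (-((y - Y / 2) / 2)) / h) := by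
        ring
      rw [this, hhe, ← Real.exp_sub]
      apply mul_le_mul_of_nonneg_left _ hC.le
      apply Real.exp_le_exp.2
      linarith
    have m3 : 8 / Y ^ 3 ≤ 1 / Y ^ 2 := by
      rw [div_le_div_iff₀ (by positivity) (by positivity), one_mul, pow_succ Y 2, mul_comm]
      exact mul_le_mul_of_nonneg_left a6 (by positivity)
    have e2 : 4 / Y ^ 2 = 1 / Y ^ 2 + 1 / Y ^ 2 + 1 / Y ^ 2 + 1 / Y ^ 2 := by ring
    rw [e2]
    linarith
  have n4 : 10 / h * (S ^ (-(1 / 2) : ℝ) * ZZ q) ≤ 1 / (q : ℝ) ^ 2 := by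
    refine le_trans ?_ b6
    have e : S ^ (-(1 / 2) : ℝ) = Real.exp (-(Y / 4)) := by
      rw [hS, ← Real.exp_mul]
      congr 1
      ring
    have e2 : 10 / h = 10 * Real.exp lam := by
      rw [hhe, Real.exp_neg, div_inv_eq_mul]
    rw [e, e2, mul_assoc]
    apply mul_le_mul_of_nonneg_left _ (by norm_num)
    calc Real.exp lam * (Real.exp (-(Y / 4)) * ZZ q) ≤
          Real.exp lam * (Real.exp (-(Y / 4)) * Real.exp (c1 / 16 * q)) := by gcongr
      _ = Real.exp (lam + (-(Y / 4) + c1 / 16 * q)) := by rw [Real.exp_add, Real.exp_add]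
      _ ≤ _ := Real.exp_le_exp.2 (by linarith)
  rw [n2] at hvar
  have hYinv : 1 / Y ^ 2 ≤ 1 / c1 ^ 2 * (1 / (q : ℝ) ^ 2) := by
    have e : 1 / c1 ^ 2 * (1 / (q : ℝ) ^ 2) = 1 / (c1 * q) ^ 2 := by
      rw [mul_pow]
      field_simp
    rw [e]
    apply one_div_le_one_div_of_le (by positivity)
    exact pow_le_pow_left₀ (by positivity) hYq 2
  have hfin1 : 1 / Y ^ 2 + VV q * (8 / Y ^ 2) + VV q * (4 / Y ^ 2) ≤
      (1 + 20 * G1) / c1 ^ 2 * (Real.log q / q ^ 2) := by
    have h1 : 1 / Y ^ 2 + VV q * (8 / Y ^ 2) + VV q * (4 / Y ^ 2) =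
        (1 + 12 * VV q) * (1 / Y ^ 2) := by ring
    rw [h1]
    have h2 : 1 + 12 * VV q ≤ (1 + 20 * G1) * Real.log q := by
      have h3 : 0 ≤ G1 * Real.log q := mul_nonneg hG10.le (by linarith)
      linarith
    calc (1 + 12 * VV q) * (1 / Y ^ 2) ≤
          ((1 + 20 * G1) * Real.log q) * (1 / c1 ^ 2 * (1 / (q : ℝ) ^ 2)) := by
          apply mul_le_mul h2 hYinv (by positivity)
          have : 0 ≤ Real.log q := by linarith
          positivity
      _ = _ := by ring
  have hfin2 : 1 / (q : ℝ) ^ 2 ≤ Real.log q / q ^ 2 := by gcongr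
  have hA2 : |RA q h S N y - mt q S y| ≤ VV q * (4 / Y ^ 2) :=
    hA.trans (mul_le_mul_of_nonneg_left n3 hVV0)
  have h3 : cv q h y - mt q S Y = (cv q h y - (RA q h S N y + RB q h S N y)) +
    (RA q h S N y - mt q S y) + RB q h S N y + (mt q S y - mt q S Y) := by ring
  rw [h3]
  refine (abs_add_le _ _).trans ?_
  have h5 := abs_add_le ((cv q h y - (RA q h S N y + RB q h S N y)) +
    (RA q h S N y - mt q S y)) (RB q h S N y)
  have h6 := abs_add_le (cv q h y - (RA q h S N y + RB q h S N y)) (RA q h S N y - mt q S y)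
  rw [abs_of_nonneg hB0] at h5
  have e4 : ((1 + 20 * G1) / c1 ^ 2 + 1) * (Real.log q / q ^ 2) =
      (1 + 20 * G1) / c1 ^ 2 * (Real.log q / q ^ 2) + Real.log q / q ^ 2 := by ring
  rw [e4]
  linarith

/-- smoothing changes the integral over a window by at most the scale of the smoothing -/
lemma win_smooth (q : ℕ) {h a b : ℝ} (hh : 0 < h) (hab : a ≤ b) :
    |(∫ u in a..b, cv q h u) - ∫ u in a..b, ff q u| ≤ 2 * h := by
  have hffm := measurable_ff q
  have hff1 : ∀ x, |ff q x| ≤ 1 := fun x => by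
    rw [abs_of_nonneg (ff_nonneg q x)]; exact ff_le_one q x
  have hii : ∀ x y, IntervalIntegrable (ff q) volume x y := fun x y => ii_of_bdd hffm hff1 x y
  have hsw : ∫ u in a..b, cv q h u = ∫ v, tri h v * ∫ u in a..b, ff q (u - v) := by
    have e1 : ∀ u, cv q h u = ∫ v, tri h v * ff q (u - v) := by
      intro u
      unfold cv
      rw [← integral_sub_left_eq_self _ volume u]
      congr 1
      ext v
      rw [show u - (u - v) = v by ring]
      ring
    simp only [e1]
    have e2 : ∀ v, tri h v * ∫ u in a..b, ff q (u - v) =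
        ∫ u in a..b, tri h v * ff q (u - v) := by
      intro v
      rw [intervalIntegral.integral_const_mul]
    simp only [e2]
    simp only [intervalIntegral.integral_of_le hab]
    apply integral_integral_swap
    have hb : Integrable (fun z : ℝ × ℝ => (1 : ℝ) * tri h z.2)
        ((volume.restrict (Set.Ioc a b)).prod volume) := by
      have h1 : Integrable (fun _ : ℝ => (1 : ℝ)) (volume.restrict (Set.Ioc a b)) :=
        integrable_const _
      exact h1.mul_prod (tri_integrable hh)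
    refine hb.mono' ?_ ?_
    · apply Measurable.aestronglyMeasurable
      unfold Function.uncurry
      simp only
      exact ((tri_continuous h).measurable.comp measurable_snd).mul
        (hffm.comp (measurable_fst.sub measurable_snd))
    · refine Eventually.of_forall fun z => ?_
      unfold Function.uncurry
      simp only
      rw [Real.norm_eq_abs, abs_mul, abs_of_nonneg (tri_nonneg hh _), one_mul]
      calc tri h z.2 * |ff q (z.1 - z.2)| ≤ tri h z.2 * 1 :=
            mul_le_mul_of_nonneg_left (hff1 _) (tri_nonneg hh _)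
        _ = _ := mul_one _
  set I0 := ∫ u in a..b, ff q u with hI0
  have hcmp : ∀ v : ℝ, |v| ≤ h → |(∫ u in a..b, ff q (u - v)) - I0| ≤ 2 * h := by
    intro v hv
    have h1 : ∫ u in a..b, ff q (u - v) = ∫ u in (a - v)..(b - v), ff q u :=
      intervalIntegral.integral_comp_sub_right (fun u => ff q u) v
    rw [h1, hI0]
    have e : (∫ u in (a - v)..(b - v), ff q u) - ∫ u in a..b, ff q u =
        (∫ u in (a - v)..a, ff q u) - ∫ u in (b - v)..b, ff q u := by
      have h1 := intervalIntegral.integral_add_adjacent_intervals (hii (a - v) a) (hii a b)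
      have h2 := intervalIntegral.integral_add_adjacent_intervals (hii (a - v) (b - v))
        (hii (b - v) b)
      linarith
    rw [e]
    have h1 : ∀ x : ℝ, |∫ u in (x - v)..x, ff q u| ≤ |v| := by
      intro x
      have := intervalIntegral.norm_integral_le_of_norm_le_const (a := x - v) (b := x) (C := 1)
        (f := ff q) (fun y _ => by rw [Real.norm_eq_abs]; exact hff1 y)
      rw [Real.norm_eq_abs] at this
      simpa using this
    have h2 := h1 a
    have h3 := h1 b
    refine (abs_sub _ _).trans ?_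
    linarith
  have hJm : StronglyMeasurable fun v : ℝ => ∫ u in a..b, ff q (u - v) := by
    simp only [intervalIntegral.integral_of_le hab]
    apply StronglyMeasurable.integral_prod_right
    apply Measurable.stronglyMeasurable
    exact hffm.comp (measurable_snd.sub measurable_fst)
  have hJ1 : ∀ v : ℝ, |∫ u in a..b, ff q (u - v)| ≤ |b - a| := by
    intro v
    have := intervalIntegral.norm_integral_le_of_norm_le_const (a := a) (b := b) (C := 1)
      (f := fun u => ff q (u - v)) (fun x _ => by rw [Real.norm_eq_abs]; exact hff1 _)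
    rw [Real.norm_eq_abs] at this
    simpa using this
  have hJint : Integrable fun v => tri h v * ∫ u in a..b, ff q (u - v) := by
    refine ((tri_integrable hh).mul_const |b - a|).mono'
      ((tri_continuous h).aestronglyMeasurable.mul hJm.aestronglyMeasurable)
      (Eventually.of_forall fun v => ?_)
    rw [Real.norm_eq_abs, abs_mul, abs_of_nonneg (tri_nonneg hh _)]
    exact mul_le_mul_of_nonneg_left (hJ1 v) (tri_nonneg hh _)
  have h1 : I0 = ∫ v, tri h v * I0 := by
    rw [integral_mul_const, integral_tri hh, one_mul]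
  rw [hsw]
  conv_lhs => rw [h1]
  rw [← integral_sub hJint ((tri_integrable hh).mul_const _)]
  have h2 : ∀ v, |tri h v * (∫ u in a..b, ff q (u - v)) - tri h v * I0| ≤
      tri h v * (2 * h) := by
    intro v
    rw [← mul_sub, abs_mul, abs_of_nonneg (tri_nonneg hh _)]
    rcases le_or_gt h |v| with h3 | h3
    · rw [tri_zero_of hh h3]
      simp
    · exact mul_le_mul_of_nonneg_left (hcmp v h3.le) (tri_nonneg hh _)
  calc _ ≤ ∫ v, tri h v * (2 * h) := by
        rw [← Real.norm_eq_abs]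
        apply norm_integral_le_of_norm_le ((tri_integrable hh).mul_const _)
        exact Eventually.of_forall fun v => by rw [Real.norm_eq_abs]; exact h2 v
    _ = _ := by rw [integral_mul_const, integral_tri hh, one_mul]

/-- the integral of the indicator over every very short window -/
theorem window {c1 : ℝ} (hc1 : 0 < c1) : ∃ κ K : ℝ, 0 < κ ∧ 0 < K ∧ ∃ P : ℕ, ∀ q ≥ P,
    ∀ Y : ℝ, c1 * q ≤ Y → ∃ μ : ℝ, ∀ a b : ℝ, Y ≤ a → b ≤ Y + 2 →
      Real.exp (-(κ * Y / Real.log Y)) ≤ b - a →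
      |(∫ u in a..b, ff q u) - μ * (b - a)| ≤ K * (Real.log q / q ^ 2) * (b - a) := by
  obtain ⟨cc, K, hcc, hK, P, hP⟩ := cv_pt hc1
  have hlogq : ∀ᶠ q : ℕ in atTop, 1 ≤ Real.log q :=
    (Real.tendsto_log_atTop.comp tendsto_natCast_atTop_atTop).eventually_ge_atTop 1
  obtain ⟨P2, hP2⟩ := (hlogq.and (eventually_ge_atTop 1)).exists_forall_of_atTop
  refine ⟨cc / 2, K + 2 / c1 ^ 2, by positivity, by positivity, max P P2, fun q hq Y hYq => ?_⟩
  obtain ⟨b4, b7⟩ := hP2 q ((le_max_right _ _).trans hq)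
  obtain ⟨⟨a1, a2, a3, a4⟩, μ, hμ⟩ := hP q ((le_max_left _ _).trans hq) Y hYq
  refine ⟨μ, fun a b ha hb hab => ?_⟩
  have hY0 : 0 < Y := by linarith
  have hq0 : (0 : ℝ) < q := by exact_mod_cast b7
  set h := hs cc Y with hh
  have hh0 : 0 < h := hs_pos _ _
  have hba : 0 < b - a := lt_of_lt_of_le (Real.exp_pos _) hab
  have hab' : a ≤ b := by linarith
  have hsm := win_smooth q hh0 hab'
  have hcvc := cv_continuous q hh0
  have hint : |(∫ u in a..b, cv q h u) - μ * (b - a)| ≤ K * (Real.log q / q ^ 2) * (b - a) := by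
    have e : (∫ u in a..b, cv q h u) - μ * (b - a) = ∫ u in a..b, (cv q h u - μ) := by
      rw [intervalIntegral.integral_sub (hcvc.intervalIntegrable _ _) intervalIntegrable_const,
        intervalIntegral.integral_const, smul_eq_mul]
      ring
    rw [e]
    have := intervalIntegral.norm_integral_le_of_norm_le_const (a := a) (b := b)
      (C := K * (Real.log q / q ^ 2)) (f := fun u => cv q h u - μ) (fun x hx => by
        rw [Set.uIoc_of_le hab'] at hx
        rw [Real.norm_eq_abs]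
        exact hμ x (by linarith [hx.1]) (by linarith [hx.2]))
    rwa [Real.norm_eq_abs, abs_of_pos hba] at this
  have hhab : h ≤ (b - a) * (1 / Y ^ 2) := by
    have e : h = Real.exp (-(cc / 2 * Y / Real.log Y)) * Real.exp (-(cc / 2 * Y / Real.log Y)) := by
      rw [hh]
      unfold hs
      rw [← Real.exp_add]
      congr 1
      ring
    rw [e]
    apply mul_le_mul hab _ (Real.exp_pos _).le hba.le
    exact (Real.exp_le_exp.2 (by linarith)).trans a2
  have hYinv : 1 / Y ^ 2 ≤ 1 / c1 ^ 2 * (Real.log q / (q : ℝ) ^ 2) := by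
    have e : 1 / c1 ^ 2 * (1 / (q : ℝ) ^ 2) = 1 / (c1 * q) ^ 2 := by
      rw [mul_pow]
      field_simp
    have h1 : 1 / Y ^ 2 ≤ 1 / c1 ^ 2 * (1 / (q : ℝ) ^ 2) := by
      rw [e]
      apply one_div_le_one_div_of_le (by positivity)
      exact pow_le_pow_left₀ (by positivity) hYq 2
    refine h1.trans ?_
    gcongr
  have h1 : 2 * h ≤ 2 / c1 ^ 2 * (Real.log q / q ^ 2) * (b - a) := by
    calc 2 * h ≤ 2 * ((b - a) * (1 / Y ^ 2)) := by linarith
      _ ≤ 2 * ((b - a) * (1 / c1 ^ 2 * (Real.log q / (q : ℝ) ^ 2))) := by gcongr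
      _ = _ := by ring
  have e : (∫ u in a..b, ff q u) - μ * (b - a) = ((∫ u in a..b, cv q h u) - μ * (b - a)) -
      ((∫ u in a..b, cv q h u) - ∫ u in a..b, ff q u) := by ring
  rw [e]
  refine (abs_sub _ _).trans ?_
  have e2 : (K + 2 / c1 ^ 2) * (Real.log q / q ^ 2) * (b - a) =
    K * (Real.log q / q ^ 2) * (b - a) + 2 / c1 ^ 2 * (Real.log q / q ^ 2) * (b - a) := by ring
  rw [e2]
  linarith

end Pool.Agent.Y895.PM
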