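import Pool.Agent.Y895.PM.G2
import Pool.Agent.TH888.R.Sh

set_option autoImplicit false

/-!
# Random lower digits under prescribed upper digits, for a general base
-/

open Filter Topology MeasureTheory Finset
open scoped Real

namespace Pool.Agent.Y895.PM

open Pool.Agent.H305R2 (roughPart log_nat_tendsto)
open Pool.Agent.TH888.R (Sys wt wt_nonneg row_set)

/-- the unit interval -/
noncomputable def U01 : Measure ℝ := volume.restrict (Set.Ico (0 : ℝ) 1)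

instance : IsFiniteMeasure U01 := by unfold U01; infer_instance

section

variable {b : ℕ}

lemma floor_meas (b : ℕ) (G : ℕ → ℝ) (M : ℕ) : Measurable fun t : ℝ => G ⌊(b : ℝ) ^ M * t⌋₊ :=
  (measurable_from_nat (f := G)).comp (Nat.measurable_floor.comp (measurable_const_mul _))

lemma avg (hb : 2 ≤ b) {G : ℕ → ℝ} (hG : ∀ n, |G n| ≤ 1) (M : ℕ) :
    ∫ t, G ⌊(b : ℝ) ^ M * t⌋₊ ∂U01 = ((b : ℝ) ^ M)⁻¹ * ∑ D ∈ range (b ^ M), G D := by
  have hb0 : (0 : ℝ) < b := by positivity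
  have h0 : (0 : ℝ) < (b : ℝ) ^ M := by positivity
  unfold U01
  rw [integral_Ico_eq_integral_Ioo, ← integral_Ioc_eq_integral_Ioo,
    ← intervalIntegral.integral_of_le zero_le_one]
  have hii : ∀ x y, IntervalIntegrable (fun t : ℝ => G ⌊(b : ℝ) ^ M * t⌋₊) volume x y :=
    fun x y => Pool.Agent.W66.ii_of_bdd (floor_meas b G M) (fun t => hG _) x y
  have h1 := intervalIntegral.sum_integral_adjacent_intervals
    (a := fun k : ℕ => (k : ℝ) / (b : ℝ) ^ M) (n := b ^ M) (μ := volume)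
    (f := fun t : ℝ => G ⌊(b : ℝ) ^ M * t⌋₊) (fun k _ => hii _ _)
  have e0 : ((0 : ℕ) : ℝ) / (b : ℝ) ^ M = 0 := by simp
  have e1 : (((b ^ M : ℕ)) : ℝ) / (b : ℝ) ^ M = 1 := by
    push_cast
    exact div_self h0.ne'
  simp only [e0, e1] at h1
  rw [← h1, Finset.mul_sum]
  refine Finset.sum_congr rfl fun k _ => ?_
  have hle : (k : ℝ) / (b : ℝ) ^ M ≤ ((k + 1 : ℕ) : ℝ) / (b : ℝ) ^ M := by
    apply div_le_div_of_nonneg_right _ h0.le
    push_cast
    linarith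
  rw [intervalIntegral.integral_of_le hle, integral_Ioc_eq_integral_Ioo]
  have h2 : ∫ t in Set.Ioo ((k : ℝ) / (b : ℝ) ^ M) (((k + 1 : ℕ) : ℝ) / (b : ℝ) ^ M),
      G ⌊(b : ℝ) ^ M * t⌋₊ =
      ∫ _ in Set.Ioo ((k : ℝ) / (b : ℝ) ^ M) (((k + 1 : ℕ) : ℝ) / (b : ℝ) ^ M), G k := by
    apply setIntegral_congr_fun measurableSet_Ioo
    intro t ht
    have h3 : (k : ℝ) < (b : ℝ) ^ M * t := by
      have := ht.1
      rw [div_lt_iff₀ h0] at this
      linarith
    have h4 : (b : ℝ) ^ M * t < (k : ℝ) + 1 := by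
      have := ht.2
      rw [lt_div_iff₀ h0] at this
      push_cast at this
      linarith
    have h5 : ⌊(b : ℝ) ^ M * t⌋₊ = k := by
      rw [Nat.floor_eq_iff (by linarith [Nat.cast_nonneg (α := ℝ) k])]
      exact ⟨h3.le, h4⟩
    simp only [h5]
  rw [h2, setIntegral_const, smul_eq_mul]
  simp only [Measure.real, Real.volume_Ioo]
  rw [ENNReal.toReal_ofReal (by linarith)]
  push_cast
  field_simp
  ring

lemma floor_div (hb : 2 ≤ b) (M h : ℕ) (t : ℝ) :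
    ⌊(b : ℝ) ^ M * t⌋₊ = ⌊(b : ℝ) ^ (h + M) * t⌋₊ / b ^ h := by
  have hb0 : (0 : ℝ) < b := by positivity
  have h0 : (0 : ℝ) < (b : ℝ) ^ h := by positivity
  rw [← Nat.floor_div_natCast]
  congr 1
  push_cast
  rw [pow_add]
  field_simp

lemma corr (hb : 2 ≤ b) {F G : ℕ → ℝ} (hF : ∀ n, |F n| ≤ 1) (hG : ∀ n, |G n| ≤ 1) (m h : ℕ) :
    ∫ t, F ⌊(b : ℝ) ^ m * t⌋₊ * G ⌊(b : ℝ) ^ (h + m) * t⌋₊ ∂U01 =
      ((b : ℝ) ^ (h + m))⁻¹ * ∑ k ∈ range (b ^ m), ∑ r ∈ range (b ^ h), F k * G (b ^ h * k + r) := by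
  have hbh : 0 < b ^ h := by positivity
  have h1 : ∀ t : ℝ, F ⌊(b : ℝ) ^ m * t⌋₊ * G ⌊(b : ℝ) ^ (h + m) * t⌋₊ =
      (fun D => F (D / b ^ h) * G D) ⌊(b : ℝ) ^ (h + m) * t⌋₊ := by
    intro t
    simp only
    rw [← floor_div hb]
  simp only [h1]
  rw [avg hb (G := fun D => F (D / b ^ h) * G D) (fun n => by
    rw [abs_mul]
    exact mul_le_one₀ (hF _) (abs_nonneg _) (hG _)),
    show range (b ^ (h + m)) = range (b ^ h * b ^ m) by rw [pow_add], ← sum_blocks]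
  congr 1
  refine Finset.sum_congr rfl fun k _ => Finset.sum_congr rfl fun r hr => ?_
  rw [mem_range] at hr
  have h2 : (b ^ h * k + r) / b ^ h = k := by
    rw [Nat.mul_add_div hbh, Nat.div_eq_of_lt hr, add_zero]
  simp only [h2]

/-- the integers -/
noncomputable def XX (b : ℕ) (A m : ℕ → ℕ) (q : ℕ) (t : ℝ) : ℕ := A q + ⌊(b : ℝ) ^ m q * t⌋₊

/-- the indicators -/
noncomputable def gf (b : ℕ) (A m : ℕ → ℕ) (q : ℕ) (t : ℝ) : ℝ := fn q (XX b A m q t)

/-- the means -/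
noncomputable def ee (b : ℕ) (A m : ℕ → ℕ) (q : ℕ) : ℝ :=
  ((b : ℝ) ^ m q)⁻¹ * cnt q (A q) (b ^ m q)

lemma ee_eq (hb : 2 ≤ b) (A m : ℕ → ℕ) (q : ℕ) : ∫ t, gf b A m q t ∂U01 = ee b A m q :=
  avg hb (G := fun D => fn q (A q + D)) (fun n => by
    rw [abs_of_nonneg (fn_nonneg _ _)]; exact fn_le_one _ _) (m q)

lemma cnt_le (q B L : ℕ) : cnt q B L ≤ L := by
  unfold cnt
  calc ∑ D ∈ range L, fn q (B + D) ≤ ∑ D ∈ range L, (1 : ℝ) :=
        Finset.sum_le_sum fun D _ => fn_le_one _ _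
    _ = L := by simp

lemma ee_nonneg (b : ℕ) (A m : ℕ → ℕ) (q : ℕ) : 0 ≤ ee b A m q :=
  mul_nonneg (by positivity) (cnt_nonneg _ _ _)

lemma ee_le_one (hb : 2 ≤ b) (A m : ℕ → ℕ) (q : ℕ) : ee b A m q ≤ 1 := by
  unfold ee
  have hb0 : (0 : ℝ) < b := by positivity
  have h1 := cnt_le q (A q) (b ^ m q)
  push_cast at h1
  rw [inv_mul_eq_div, div_le_one (by positivity)]
  exact h1

lemma cs_abs (hb : 2 ≤ b) (A m : ℕ → ℕ) (q n : ℕ) : |fn q n - ee b A m q| ≤ 1 := by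
  rw [abs_le]
  constructor <;> linarith [fn_nonneg q n, fn_le_one q n, ee_nonneg b A m q, ee_le_one hb A m q]

lemma gf_meas (b : ℕ) (A m : ℕ → ℕ) (q : ℕ) : Measurable (gf b A m q) :=
  floor_meas b (fun D => fn q (A q + D)) (m q)

/-- admissible families -/
structure Adm (b : ℕ) (κ c C : ℝ) (A m : ℕ → ℕ) (P : ℕ) : Prop where
  mono : ∀ p ≥ P, ∀ q ≥ p, m p ≤ m q
  lo : ∀ p ≥ P, c * (b : ℝ) ^ p ≤ A p
  up : ∀ p ≥ P, (A p : ℝ) ≤ C * (b : ℝ) ^ p
  dig : ∀ p ≥ P, b ^ m p ≤ A p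
  big : ∀ p ≥ P, (p : ℝ) - κ * p / Real.log p ≤ m p

/-- centred correlations in terms of sums -/
lemma corr_c (hb : 2 ≤ b) (A m : ℕ → ℕ) {p q : ℕ} (hm : m p ≤ m q) :
    ∫ t, (gf b A m p t - ee b A m p) * (gf b A m q t - ee b A m q) ∂U01 =
      ((b : ℝ) ^ m q)⁻¹ * ∑ k ∈ range (b ^ m p), (fn p (A p + k) - ee b A m p) *
        (cnt q (A q + b ^ (m q - m p) * k) (b ^ (m q - m p)) -
          (b : ℝ) ^ (m q - m p) * ee b A m q) := by
  have h1 := corr hb (F := fun D => fn p (A p + D) - ee b A m p)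
    (G := fun D => fn q (A q + D) - ee b A m q)
    (fun n => cs_abs hb A m p _) (fun n => cs_abs hb A m q _) (m p) (m q - m p)
  rw [Nat.sub_add_cancel hm] at h1
  unfold gf XX
  rw [h1]
  congr 1
  refine Finset.sum_congr rfl fun k _ => ?_
  rw [← Finset.mul_sum]
  congr 1
  rw [Finset.sum_sub_distrib, Finset.sum_const, card_range, nsmul_eq_mul]
  push_cast
  congr 1
  unfold cnt
  refine Finset.sum_congr rfl fun r _ => ?_
  rw [add_assoc]

lemma corr_p (hb : 2 ≤ b) (A m : ℕ → ℕ) {p q : ℕ} (hm : m p ≤ m q) :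
    ∫ t, gf b A m p t * gf b A m q t ∂U01 =
      ((b : ℝ) ^ m q)⁻¹ * ∑ k ∈ range (b ^ m p), ∑ r ∈ range (b ^ (m q - m p)),
        fn p (A p + k) * fn q (A q + (b ^ (m q - m p) * k + r)) := by
  have hbd : ∀ q n, |fn q n| ≤ 1 := fun q n => by
    rw [abs_of_nonneg (fn_nonneg _ _)]; exact fn_le_one _ _
  have h1 := corr hb (F := fun D => fn p (A p + D)) (G := fun D => fn q (A q + D))
    (fun n => hbd _ _) (fun n => hbd _ _) (m p) (m q - m p)
  rw [Nat.sub_add_cancel hm] at h1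
  unfold gf XX
  rw [h1]

lemma gf01 (b : ℕ) (A m : ℕ → ℕ) (q : ℕ) (t : ℝ) : gf b A m q t = 0 ∨ gf b A m q t = 1 := fn01 _ _

lemma gf_int (b : ℕ) (A m : ℕ → ℕ) (q : ℕ) : Integrable (gf b A m q) U01 := by
  refine Integrable.of_bound (gf_meas b A m q).aestronglyMeasurable 1
    (Eventually.of_forall fun x => ?_)
  rw [Real.norm_eq_abs]
  unfold gf
  rw [abs_of_nonneg (fn_nonneg _ _)]
  exact fn_le_one _ _

lemma gf_mul_int (b : ℕ) (A m : ℕ → ℕ) (p q : ℕ) :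
    Integrable (fun t => gf b A m p t * gf b A m q t) U01 := by
  refine Integrable.of_bound ((gf_meas b A m p).mul (gf_meas b A m q)).aestronglyMeasurable 1
    (Eventually.of_forall fun x => ?_)
  rw [Real.norm_eq_abs, abs_mul]
  unfold gf
  rw [abs_of_nonneg (fn_nonneg _ _), abs_of_nonneg (fn_nonneg _ _)]
  exact mul_le_one₀ (fn_le_one _ _) (fn_nonneg _ _) (fn_le_one _ _)

lemma U01_univ : U01.real Set.univ = 1 := by
  unfold U01 Measure.real
  rw [Measure.restrict_apply_univ, Real.volume_Ico]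
  norm_num

lemma corr_cov (hb : 2 ≤ b) (A m : ℕ → ℕ) (p q : ℕ) :
    ∫ t, (gf b A m p t - ee b A m p) * (gf b A m q t - ee b A m q) ∂U01 =
      (∫ t, gf b A m p t * gf b A m q t ∂U01) - ee b A m p * ee b A m q := by
  have e : ∀ t, (gf b A m p t - ee b A m p) * (gf b A m q t - ee b A m q) =
      gf b A m p t * gf b A m q t - ee b A m q * gf b A m p t - (ee b A m p * gf b A m q t -
        ee b A m p * ee b A m q) := by
    intro t; ring
  simp only [e]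
  rw [integral_sub, integral_sub, integral_sub, integral_const_mul, integral_const_mul, ee_eq hb,
    ee_eq hb, integral_const, U01_univ, smul_eq_mul]
  · ring
  · exact (gf_int b A m q).const_mul _
  · exact integrable_const _
  · exact gf_mul_int b A m p q
  · exact (gf_int b A m p).const_mul _
  · exact (gf_mul_int b A m p q).sub ((gf_int b A m p).const_mul _)
  · exact ((gf_int b A m q).const_mul _).sub (integrable_const _)

end

end Pool.Agent.Y895.PM
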