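import Pool.Agent.W66.PH

set_option autoImplicit false

/-!
# From the mean square to every point: auxiliary lemmas
-/

open Filter Topology Set MeasureTheory Metric
open scoped Real

namespace Pool.Agent.Y895.PM

open Pool.Agent.W66
open ArithmeticFunction (vonMangoldt)

lemma gg_one (h y : ℝ) : gg h {1} (fun _ => (1 : ℝ)) y = tri h y := by
  unfold gg
  simp

lemma hat_tri_int {h : ℝ} (hh : 0 < h) (u x : ℝ) : Integrable fun v : ℝ => hat (u - v) * tri h (x - v) := by
  have := hat_gg_integrable hh {1} (fun _ => (1 : ℝ)) u x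
  simpa only [gg_one] using this

/-- linearity in the coefficients -/
lemma FF_lin {h : ℝ} (hh : 0 < h) (u : ℝ) (N : ℕ) (L : Finset ℕ) (c : ℕ → ℝ) (x : ℝ) :
    FF u h N L c x = ∑ l ∈ L, c l * FF u h N {1} (fun _ => 1) (x - Real.log l) := by
  unfold FF
  simp only [gg_one]
  have h2 : ∫ v : ℝ, hat (u - v) * gg h L c (x - v) =
      ∑ l ∈ L, c l * ∫ v : ℝ, hat (u - v) * tri h (x - Real.log l - v) := by
    have e : ∀ v : ℝ, hat (u - v) * gg h L c (x - v) =
        ∑ l ∈ L, c l * (hat (u - v) * tri h (x - Real.log l - v)) := by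
      intro v
      unfold gg
      rw [Finset.mul_sum]
      refine Finset.sum_congr rfl fun l _ => ?_
      rw [show x - v - Real.log l = x - Real.log l - v by ring]
      ring
    simp only [e]
    rw [integral_finsetSum]
    · refine Finset.sum_congr rfl fun l _ => ?_
      rw [integral_const_mul]
    · intro l _
      exact (hat_tri_int hh u _).const_mul _
  have h1 : ∑ n ∈ Finset.Ioc 0 N, vonMangoldt n / n * hat (u - Real.log n) *
      gg h L c (x - Real.log n) = ∑ l ∈ L, c l * ∑ n ∈ Finset.Ioc 0 N,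
        vonMangoldt n / n * hat (u - Real.log n) * tri h (x - Real.log l - Real.log n) := by
    unfold gg
    simp only [Finset.mul_sum]
    rw [Finset.sum_comm]
    refine Finset.sum_congr rfl fun l _ => Finset.sum_congr rfl fun n _ => ?_
    rw [show x - Real.log n - Real.log l = x - Real.log l - Real.log n by ring]
    ring
  rw [h1, h2, ← Finset.sum_sub_distrib]
  refine Finset.sum_congr rfl fun l _ => by ring

/-- the localised discrepancy -/
noncomputable def GX (h : ℝ) (N u0 U : ℕ) (v : ℝ) : ℝ :=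
  ∑ u ∈ Finset.Icc u0 U, FF u h N {1} (fun _ => 1) v

lemma GX_continuous {h : ℝ} (hh : 0 < h) (N u0 U : ℕ) : Continuous (GX h N u0 U) := by
  unfold GX
  apply continuous_finsetSum
  intro u _
  exact FF_continuous hh u N _ _

lemma sum_FF {h : ℝ} (hh : 0 < h) (N u0 U : ℕ) (L : Finset ℕ) (c : ℕ → ℝ) (x : ℝ) :
    ∑ u ∈ Finset.Icc u0 U, FF u h N L c x = ∑ l ∈ L, c l * GX h N u0 U (x - Real.log l) := by
  unfold GX
  simp only [Finset.mul_sum]
  rw [Finset.sum_comm]
  refine Finset.sum_congr rfl fun u _ => FF_lin hh u N L c x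

lemma GX_eq {h v : ℝ} (hh : 0 < h) (N u0 U : ℕ) (hu : u0 ≤ U) (hv : v + h ≤ U) :
    GX h N u0 U v = ∑ m ∈ Finset.Ioc 0 N, vonMangoldt m / m * (rp u0 (Real.log m) *
      tri h (v - Real.log m)) - ∫ t : ℝ, rp u0 t * tri h (v - t) := by
  have h1 := typeII hh N u0 U hu hv {1} (fun l hl => by
    rw [Finset.mem_singleton] at hl; omega) (fun _ => (1 : ℝ))
  simp only [gg_one] at h1
  unfold GX
  have h2 : ∑ m ∈ Finset.Ioc 0 N, vonMangoldt m / m * tri h (v - Real.log m) =
      ∑ m ∈ Finset.Ioc 0 N, vonMangoldt m / m * (rp u0 (Real.log m) * tri h (v - Real.log m)) +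
      ∑ m ∈ Finset.Ioc 0 N, vonMangoldt m / m *
        ((1 - rp u0 (Real.log m)) * tri h (v - Real.log m)) := by
    rw [← Finset.sum_add_distrib]
    refine Finset.sum_congr rfl fun m _ => by ring
  linarith

lemma rp_lip (a v w : ℝ) : |rp a v - rp a w| ≤ |v - w| := by
  wlog hvw : v ≤ w with H
  · rw [abs_sub_comm, abs_sub_comm v w]
    exact H a w v (by linarith)
  have h1 := rp_mono a hvw
  rw [abs_of_nonpos (by linarith), abs_of_nonpos (by linarith)]
  unfold rp
  rcases le_total a v with h2 | h2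
  · rw [max_eq_right (by linarith : a - v ≤ 0), max_eq_right (by linarith : a - 1 - v ≤ 0),
      max_eq_right (by linarith : a - w ≤ 0), max_eq_right (by linarith : a - 1 - w ≤ 0)]
    linarith
  · rcases le_total (a - 1) v with h3 | h3
    · rw [max_eq_left (by linarith : 0 ≤ a - v), max_eq_right (by linarith : a - 1 - v ≤ 0),
        max_eq_right (by linarith : a - 1 - w ≤ 0)]
      have := le_max_left (a - w) 0
      linarith
    · rw [max_eq_left (by linarith : 0 ≤ a - v), max_eq_left (by linarith : 0 ≤ a - 1 - v)]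
      rcases le_total (a - 1) w with h4 | h4
      · rw [max_eq_right (by linarith : a - 1 - w ≤ 0)]
        have := le_max_left (a - w) 0
        linarith
      · rw [max_eq_left (by linarith : 0 ≤ a - 1 - w), max_eq_left (by linarith : 0 ≤ a - w)]
        linarith

lemma rp_abs (a v : ℝ) : |rp a v| ≤ 1 := by
  rw [abs_of_nonneg (rp_nonneg a v)]; exact rp_le_one a v

lemma rp_tri_int {h : ℝ} (hh : 0 < h) (a v : ℝ) : Integrable fun t : ℝ => rp a t * tri h (v - t) := by
  refine ((tri_integrable hh).comp_sub_left v).bdd_mul (c := 1) (rp_continuous a).aestronglyMeasurable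
    (Eventually.of_forall fun t => ?_)
  rw [Real.norm_eq_abs]
  exact rp_abs a t

lemma integral_tri_shift {h : ℝ} (hh : 0 < h) (v : ℝ) : ∫ t : ℝ, tri h (v - t) = 1 := by
  rw [integral_sub_left_eq_self (fun t => tri h t) volume v, integral_tri hh]

lemma rp_conv {h : ℝ} (hh : 0 < h) (a v : ℝ) : |(∫ t : ℝ, rp a t * tri h (v - t)) - rp a v| ≤ h := by
  have e : (∫ t : ℝ, rp a t * tri h (v - t)) - rp a v = ∫ t : ℝ, (rp a t - rp a v) * tri h (v - t) := by
    have h1 : rp a v = ∫ t : ℝ, rp a v * tri h (v - t) := by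
      rw [integral_const_mul, integral_tri_shift hh, mul_one]
    conv_lhs => rw [h1]
    rw [← integral_sub (rp_tri_int hh a v) (((tri_integrable hh).comp_sub_left v).const_mul _)]
    congr 1
    ext t
    ring
  rw [e]
  have h2 : ∀ t, |(rp a t - rp a v) * tri h (v - t)| ≤ h * tri h (v - t) := by
    intro t
    rw [abs_mul, abs_of_nonneg (tri_nonneg hh _)]
    rcases le_or_gt h |v - t| with h3 | h3
    · rw [tri_zero_of hh h3]; simp
    · refine mul_le_mul_of_nonneg_right ?_ (tri_nonneg hh _)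
      refine (rp_lip a t v).trans ?_
      rw [abs_sub_comm]
      exact h3.le
  calc _ ≤ ∫ t : ℝ, h * tri h (v - t) := by
        rw [← Real.norm_eq_abs]
        apply norm_integral_le_of_norm_le (((tri_integrable hh).comp_sub_left v).const_mul _)
        exact Eventually.of_forall fun t => by rw [Real.norm_eq_abs]; exact h2 t
    _ = h := by rw [integral_const_mul, integral_tri_shift hh, mul_one]

lemma rp_conv_lip {h : ℝ} (hh : 0 < h) (a v w : ℝ) :
    |(∫ t : ℝ, rp a t * tri h (v - t)) - ∫ t : ℝ, rp a t * tri h (w - t)| ≤ |v - w| := by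
  have e : ∀ x : ℝ, ∫ t : ℝ, rp a t * tri h (x - t) = ∫ t : ℝ, rp a (x - t) * tri h t := by
    intro x
    rw [← integral_sub_left_eq_self (fun t => rp a t * tri h (x - t)) volume x]
    congr 1
    ext t
    rw [show x - (x - t) = t by ring]
  have hi : ∀ x : ℝ, Integrable fun t : ℝ => rp a (x - t) * tri h t := by
    intro x
    refine (tri_integrable hh).bdd_mul (c := 1)
      ((rp_continuous a).comp (by fun_prop : Continuous fun t : ℝ => x - t)).aestronglyMeasurable
      (Eventually.of_forall fun t => ?_)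
    rw [Real.norm_eq_abs]
    exact rp_abs a _
  rw [e v, e w, ← integral_sub (hi v) (hi w)]
  have h2 : ∀ t, |rp a (v - t) * tri h t - rp a (w - t) * tri h t| ≤ |v - w| * tri h t := by
    intro t
    rw [← sub_mul, abs_mul, abs_of_nonneg (tri_nonneg hh _)]
    refine mul_le_mul_of_nonneg_right ?_ (tri_nonneg hh _)
    have := rp_lip a (v - t) (w - t)
    rwa [show v - t - (w - t) = v - w by ring] at this
  calc _ ≤ ∫ t : ℝ, |v - w| * tri h t := by
        rw [← Real.norm_eq_abs]
        apply norm_integral_le_of_norm_le ((tri_integrable hh).const_mul _)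
        exact Eventually.of_forall fun t => by rw [Real.norm_eq_abs]; exact h2 t
    _ = |v - w| := by rw [integral_const_mul, integral_tri hh, mul_one]

lemma La_nn (m : ℕ) : 0 ≤ vonMangoldt m / (m : ℝ) :=
  div_nonneg ArithmeticFunction.vonMangoldt_nonneg (Nat.cast_nonneg m)

lemma TT_nonneg {h : ℝ} (hh : 0 < h) (N : ℕ) (v : ℝ) : 0 ≤ TT h N v :=
  Finset.sum_nonneg fun m _ => mul_nonneg (La_nn m) (tri_nonneg hh _)

lemma GX_bound {h v : ℝ} (hh : 0 < h) (hh1 : h ≤ 1) (N u0 U : ℕ) (hu : u0 ≤ U) (hv : v + h ≤ U) :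
    |GX h N u0 U v| ≤ 2 * |TT h N v - 1| + 2 * h := by
  rw [GX_eq hh N u0 U hu hv]
  have h1 : |∑ m ∈ Finset.Ioc 0 N, vonMangoldt m / m * (rp u0 (Real.log m) *
      tri h (v - Real.log m)) - rp u0 v * TT h N v| ≤ h * TT h N v := by
    unfold TT
    rw [Finset.mul_sum, ← Finset.sum_sub_distrib, Finset.mul_sum]
    refine (Finset.abs_sum_le_sum_abs _ _).trans (Finset.sum_le_sum fun m _ => ?_)
    have e : vonMangoldt m / m * (rp u0 (Real.log m) * tri h (v - Real.log m)) -
        rp u0 v * (vonMangoldt m / m * tri h (v - Real.log m)) =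
        (rp u0 (Real.log m) - rp u0 v) * (vonMangoldt m / m * tri h (v - Real.log m)) := by ring
    have hnn : 0 ≤ vonMangoldt m / m * tri h (v - Real.log m) :=
      mul_nonneg (La_nn m) (tri_nonneg hh _)
    rw [e, abs_mul, abs_of_nonneg hnn]
    rcases le_or_gt h |v - Real.log m| with h3 | h3
    · rw [tri_zero_of hh h3]; simp
    · refine mul_le_mul_of_nonneg_right ?_ hnn
      refine (rp_lip u0 _ v).trans ?_
      rw [abs_sub_comm]
      exact h3.le
  have h2 := rp_conv hh u0 v
  set A := ∑ m ∈ Finset.Ioc 0 N, vonMangoldt m / m * (rp u0 (Real.log m) * tri h (v - Real.log m))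
  set B := ∫ t : ℝ, rp u0 t * tri h (v - t)
  set T := TT h N v with hT
  have hT0 : 0 ≤ T := TT_nonneg hh N v
  have h3 : |rp u0 v * (T - 1)| ≤ |T - 1| := by
    rw [abs_mul]
    exact mul_le_of_le_one_left (abs_nonneg _) (rp_abs _ _)
  have h4 : T ≤ 1 + |T - 1| := by
    have := le_abs_self (T - 1)
    linarith
  have h5 : h * T ≤ h + |T - 1| := by
    calc h * T ≤ h * (1 + |T - 1|) := mul_le_mul_of_nonneg_left h4 hh.le
      _ = h + h * |T - 1| := by ring
      _ ≤ h + 1 * |T - 1| := by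
          have := mul_le_mul_of_nonneg_right hh1 (abs_nonneg (T - 1))
          linarith
      _ = _ := by ring
  have e : A - B = (A - rp u0 v * T) + rp u0 v * (T - 1) - (B - rp u0 v) := by ring
  rw [e]
  have a1 := abs_sub ((A - rp u0 v * T) + rp u0 v * (T - 1)) (B - rp u0 v)
  have a2 := abs_add_le (A - rp u0 v * T) (rp u0 v * (T - 1))
  linarith

lemma GX_zero {h v : ℝ} (hh : 0 < h) (hh1 : h ≤ 1) (N u0 U : ℕ) (hu : u0 ≤ U) (hv : v ≤ u0 - 2) :
    GX h N u0 U v = 0 := by
  have hU : (u0 : ℝ) ≤ U := by exact_mod_cast hu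
  rw [GX_eq hh N u0 U hu (by linarith)]
  have key : ∀ t : ℝ, rp u0 t * tri h (v - t) = 0 := by
    intro t
    rcases le_or_gt h |v - t| with h3 | h3
    · rw [tri_zero_of hh h3, mul_zero]
    · rw [abs_lt] at h3
      rw [rp_zero (by linarith), zero_mul]
  simp only [key, mul_zero, Finset.sum_const_zero, integral_zero, sub_zero]

/-- Lipschitz constant of the discrepancy -/
noncomputable def Lp (h : ℝ) (N : ℕ) : ℝ := (Real.log N + 1) * (Real.log N + 2) / h ^ 2 + 1

lemma GX_lip {h v w : ℝ} (hh : 0 < h) (N u0 U : ℕ) (hN : 1 ≤ N) (hu : u0 ≤ U) (hv : v + h ≤ U)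
    (hw : w + h ≤ U) : |GX h N u0 U v - GX h N u0 U w| ≤ Lp h N * |v - w| := by
  rw [GX_eq hh N u0 U hu hv, GX_eq hh N u0 U hu hw]
  have hlN : 0 ≤ Real.log N := Real.log_nonneg (by exact_mod_cast hN)
  have hS : ∑ m ∈ Finset.Ioc 0 N, vonMangoldt m / (m : ℝ) ≤ (Real.log N + 1) * (Real.log N + 2) := by
    have h1 := La_sum_le N (u := Real.log N + 1) (by linarith)
    rw [Finset.filter_true_of_mem] at h1
    · refine h1.trans (le_of_eq (by ring))
    · intro m hm
      rw [Finset.mem_Ioc] at hm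
      have : Real.log m ≤ Real.log N :=
        Real.log_le_log (by exact_mod_cast hm.1) (by exact_mod_cast hm.2)
      linarith
  have h1 : |∑ m ∈ Finset.Ioc 0 N, vonMangoldt m / m * (rp u0 (Real.log m) * tri h (v - Real.log m)) -
      ∑ m ∈ Finset.Ioc 0 N, vonMangoldt m / m * (rp u0 (Real.log m) * tri h (w - Real.log m))| ≤
      (Real.log N + 1) * (Real.log N + 2) / h ^ 2 * |v - w| := by
    rw [← Finset.sum_sub_distrib]
    have h2 : ∀ m ∈ Finset.Ioc 0 N, |vonMangoldt m / m * (rp u0 (Real.log m) * tri h (v - Real.log m)) -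
        vonMangoldt m / m * (rp u0 (Real.log m) * tri h (w - Real.log m))| ≤
        vonMangoldt m / m * (1 / h ^ 2 * |v - w|) := by
      intro m _
      rw [← mul_sub, abs_mul, abs_of_nonneg (La_nn m), ← mul_sub, abs_mul]
      refine mul_le_mul_of_nonneg_left ?_ (La_nn m)
      have h3 := tri_lip hh (v - Real.log m) (w - Real.log m)
      rw [show v - Real.log m - (w - Real.log m) = v - w by ring] at h3
      calc |rp u0 (Real.log m)| * |tri h (v - Real.log m) - tri h (w - Real.log m)| ≤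
            1 * (1 / h ^ 2 * |v - w|) := mul_le_mul (rp_abs _ _) h3 (abs_nonneg _) zero_le_one
        _ = _ := one_mul _
    refine (Finset.abs_sum_le_sum_abs _ _).trans ((Finset.sum_le_sum h2).trans ?_)
    rw [← Finset.sum_mul]
    calc (∑ m ∈ Finset.Ioc 0 N, vonMangoldt m / (m : ℝ)) * (1 / h ^ 2 * |v - w|) ≤
          ((Real.log N + 1) * (Real.log N + 2)) * (1 / h ^ 2 * |v - w|) := by gcongr
      _ = _ := by ring
  have h2 := rp_conv_lip hh u0 v w
  set A1 := ∑ m ∈ Finset.Ioc 0 N, vonMangoldt m / m * (rp u0 (Real.log m) * tri h (v - Real.log m))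
  set A2 := ∑ m ∈ Finset.Ioc 0 N, vonMangoldt m / m * (rp u0 (Real.log m) * tri h (w - Real.log m))
  set B1 := ∫ t : ℝ, rp u0 t * tri h (v - t)
  set B2 := ∫ t : ℝ, rp u0 t * tri h (w - t)
  have e : A1 - B1 - (A2 - B2) = (A1 - A2) - (B1 - B2) := by ring
  rw [e]
  refine (abs_sub _ _).trans ?_
  unfold Lp
  rw [add_mul, one_mul]
  linarith

/-- discrete averages are bounded by integrals -/
lemma disc {g : ℝ → ℝ} (hg : Continuous g) {Λ0 : ℝ} (hΛ0 : 0 ≤ Λ0) (w N : ℕ) (hw : 1 ≤ w) (hwN : w ≤ N)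
    (hLip : ∀ v v' : ℝ, 0 ≤ v → 0 ≤ v' → |g v - g v'| ≤ Λ0 * |v - v'|) :
    ∑ l ∈ Finset.Ioc w N, 1 / (l : ℝ) * g (Real.log l) ^ 2 ≤
      4 * (∫ v in (Real.log ((w + 1 : ℕ) : ℝ))..(Real.log ((N + 1 : ℕ) : ℝ)), g v ^ 2) +
      4 * (Λ0 / w) ^ 2 * (Real.log ((N + 1 : ℕ) : ℝ) - Real.log ((w + 1 : ℕ) : ℝ)) := by
  have hw0 : (0 : ℝ) < w := by exact_mod_cast hw
  set F : ℝ → ℝ := fun v => 4 * g v ^ 2 + 4 * (Λ0 / w) ^ 2 with hF
  have hFc : Continuous F := by rw [hF]; fun_prop
  have hcell : ∀ l ∈ Finset.Ioc w N, 1 / (l : ℝ) * g (Real.log l) ^ 2 ≤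
      ∫ v in (Real.log l)..(Real.log ((l + 1 : ℕ) : ℝ)), F v := by
    intro l hl
    rw [Finset.mem_Ioc] at hl
    have hl1 : 1 ≤ l := by omega
    have hl0 : (0 : ℝ) < l := by exact_mod_cast hl1
    have hl1' : (1 : ℝ) ≤ l := by exact_mod_cast hl1
    have hwl : (w : ℝ) ≤ l := by exact_mod_cast hl.1.le
    obtain ⟨g1, g2, _⟩ := log_gap hl1
    have hlog0 : 0 ≤ Real.log l := Real.log_nonneg hl1'
    have g3 : 1 / (2 * (l : ℝ)) ≤ Real.log ((l + 1 : ℕ) : ℝ) - Real.log l := by
      have h1 : Real.log ((l + 1 : ℕ) : ℝ) - Real.log l = -Real.log ((l : ℝ) / ((l + 1 : ℕ) : ℝ)) := by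
        rw [Real.log_div hl0.ne' (by positivity)]
        ring
      rw [h1]
      have h2 := Real.log_le_sub_one_of_pos (show 0 < (l : ℝ) / ((l + 1 : ℕ) : ℝ) by positivity)
      have h3 : (l : ℝ) / ((l + 1 : ℕ) : ℝ) - 1 = -(1 / ((l : ℝ) + 1)) := by
        push_cast
        field_simp
        ring
      rw [h3] at h2
      have h4 : 1 / (2 * (l : ℝ)) ≤ 1 / ((l : ℝ) + 1) :=
        one_div_le_one_div_of_le (by positivity) (by linarith)
      linarith
    have h5 : ∫ v in (Real.log l)..(Real.log ((l + 1 : ℕ) : ℝ)), 2 * g (Real.log l) ^ 2 ≤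
        ∫ v in (Real.log l)..(Real.log ((l + 1 : ℕ) : ℝ)), F v := by
      apply intervalIntegral.integral_mono_on (by linarith) intervalIntegrable_const
        (hFc.intervalIntegrable _ _)
      intro v hv
      have h6 := hLip (Real.log l) v hlog0 (by linarith [hv.1])
      have h7 : |Real.log l - v| ≤ 1 / w := by
        rw [abs_of_nonpos (by linarith [hv.1])]
        have : 1 / (l : ℝ) ≤ 1 / w := one_div_le_one_div_of_le hw0 hwl
        linarith [hv.2]
      have h8 : |g (Real.log l) - g v| ≤ Λ0 / w := by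
        refine h6.trans ?_
        calc Λ0 * |Real.log l - v| ≤ Λ0 * (1 / w) := mul_le_mul_of_nonneg_left h7 hΛ0
          _ = _ := by ring
      have h9 : (g (Real.log l) - g v) ^ 2 ≤ (Λ0 / w) ^ 2 := by
        rw [← sq_abs]
        exact pow_le_pow_left₀ (abs_nonneg _) h8 2
      simp only [hF]
      nlinarith [sq_nonneg (g (Real.log l) - 2 * g v)]
    rw [intervalIntegral.integral_const, smul_eq_mul] at h5
    refine le_trans ?_ h5
    have h6 : 0 ≤ g (Real.log l) ^ 2 := sq_nonneg _
    calc 1 / (l : ℝ) * g (Real.log l) ^ 2 = 1 / (2 * (l : ℝ)) * (2 * g (Real.log l) ^ 2) := by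
          field_simp
      _ ≤ _ := mul_le_mul_of_nonneg_right g3 (by positivity)
  refine (Finset.sum_le_sum hcell).trans (le_of_eq ?_)
  have hIoc : Finset.Ioc w N = Finset.Ico (w + 1) (N + 1) := by
    ext x
    simp only [Finset.mem_Ioc, Finset.mem_Ico]
    omega
  rw [hIoc, intervalIntegral.sum_integral_adjacent_intervals_Ico (a := fun k : ℕ => Real.log k)
    (by omega : w + 1 ≤ N + 1) (fun k _ => hFc.intervalIntegrable _ _)]
  have hgc : Continuous fun v => 4 * g v ^ 2 := by fun_prop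
  simp only [hF]
  rw [intervalIntegral.integral_add (hgc.intervalIntegrable _ _) intervalIntegrable_const,
    intervalIntegral.integral_const_mul, intervalIntegral.integral_const, smul_eq_mul]
  ring

end Pool.Agent.Y895.PM
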