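import Pool.Agent.Y895.PM.A1

set_option autoImplicit false

/-!
# Primes in every very short interval, in a smoothed form
-/

open Filter Topology Set MeasureTheory Metric
open scoped Real

namespace Pool.Agent.Y895.PM

open Pool.Agent.W66
open ArithmeticFunction (vonMangoldt)

lemma int_GX {h : ℝ} (hh : 0 < h) (hh1 : h ≤ 1) (N V0 U T : ℕ) (hu : V0 + 2 ≤ U) (hVT : V0 ≤ T)
    {a b : ℝ} (hab : a ≤ b) (hbT : b ≤ T) :
    ∫ v in a..b, GX h N (V0 + 2) U v ^ 2 ≤ ∫ v in (V0 : ℝ)..(T : ℝ), GX h N (V0 + 2) U v ^ 2 := by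
  have hVT' : (V0 : ℝ) ≤ T := by exact_mod_cast hVT
  have hc : Continuous fun v => GX h N (V0 + 2) U v ^ 2 := (GX_continuous hh N _ U).pow 2
  rw [intervalIntegral.integral_of_le hab, intervalIntegral.integral_of_le hVT']
  have h1 : ∫ v in Set.Ioc a b, GX h N (V0 + 2) U v ^ 2 =
      ∫ v in Set.Ioc a b ∩ Set.Ioi (V0 : ℝ), GX h N (V0 + 2) U v ^ 2 := by
    apply setIntegral_eq_of_subset_of_forall_sdiff_eq_zero measurableSet_Ioc Set.inter_subset_left
    intro x hx
    have h2 : x ≤ V0 := by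
      by_contra hc
      exact hx.2 ⟨hx.1, not_le.1 hc⟩
    rw [GX_zero hh hh1 N (V0 + 2) U hu (by push_cast; linarith)]
    norm_num
  rw [h1]
  apply setIntegral_mono_set
  · exact hc.integrableOn_Ioc
  · exact Eventually.of_forall fun v => by simp only [Pi.zero_apply]; positivity
  · apply HasSubset.Subset.eventuallyLE
    intro x hx
    exact ⟨hx.2, hx.1.2.trans hbT⟩

lemma sq_aux {G T h : ℝ} (h1 : |G| ≤ 2 * |T| + 2 * h) : G ^ 2 ≤ 8 * T ^ 2 + 8 * h ^ 2 := by
  have h3 : G ^ 2 ≤ (2 * |T| + 2 * h) ^ 2 := by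
    rw [← sq_abs]
    exact pow_le_pow_left₀ (abs_nonneg _) h1 2
  have h4 := sq_abs T
  nlinarith [sq_nonneg (|T| - h)]

lemma poly_aux {l z : ℝ} (h0 : 0 ≤ l) (h1 : l ≤ z + 5) (h2 : 40 ≤ z) :
    (l + 1) * (l + 2) ≤ 2 * z ^ 2 := by
  have h3 : (l + 1) * (l + 2) ≤ (z + 6) * (z + 7) :=
    mul_le_mul (by linarith) (by linarith) (by linarith) (by linarith)
  nlinarith

theorem KTP (A : ℕ) : ∃ c0 Z0 : ℝ, 0 < c0 ∧ 1 ≤ Z0 ∧ ∀ z lam h : ℝ, Z0 ≤ z → h = Real.exp (-lam) →
    √(z + 2) ≤ lam → lam * Real.log z ≤ c0 * z → ∀ N : ℕ, Real.exp (z + 1) ≤ N →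
    |TT h N z - 1| ≤ 1 / z ^ A := by
  set D := A + 6 with hD
  clear_value D
  obtain ⟨ck, Zk, hck, hZk, hKT⟩ := KT (4 * D)
  obtain ⟨Cz, hCz, hmz⟩ := m0_bound (2 * D)
  obtain ⟨Cl, hCl, hml⟩ := m1_bound (2 * D)
  set Cd := max Cz Cl with hCd
  have hCd0 : 0 < Cd := lt_of_lt_of_le hCz (le_max_left _ _)
  set C1 : ℝ := 2 / ck + 1 with hC1
  have hC10 : 0 < C1 := by positivity
  have hC11 : 1 ≤ C1 := by
    have : 0 < 2 / ck := by positivity
    linarith
  set K2 : ℝ := 60 * (Cd + 1) with hK2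
  have hlim1 : ∀ᶠ Z : ℝ in atTop, 11 * (Z ^ D * Real.exp (-√Z)) ≤ 1 := by
    have h1 := (Real.tendsto_pow_mul_exp_neg_atTop_nhds_zero (2 * D)).comp Real.tendsto_sqrt_atTop
    have h2 : ∀ᶠ Z : ℝ in atTop, (√Z) ^ (2 * D) * Real.exp (-√Z) < 1 / 11 :=
      h1.eventually_lt_const (by norm_num)
    filter_upwards [h2, eventually_ge_atTop 0] with Z h3 h4
    rw [pow_mul, Real.sq_sqrt h4] at h3
    linarith
  have hlim2 : ∀ᶠ Z : ℝ in atTop, 200 * (Z ^ D * Real.exp (-(Z / 2))) ≤ 1 := by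
    have h0 : Tendsto (fun Z : ℝ => Z / 2) atTop atTop := tendsto_id.atTop_div_const (by norm_num)
    have h1 := (Real.tendsto_pow_mul_exp_neg_atTop_nhds_zero D).comp h0
    have h2 : ∀ᶠ Z : ℝ in atTop, (Z / 2) ^ D * Real.exp (-(Z / 2)) < 1 / (200 * 2 ^ D) :=
      h1.eventually_lt_const (by positivity)
    filter_upwards [h2] with Z h3
    rw [div_pow, lt_div_iff₀ (by positivity)] at h3
    have : Z ^ D / 2 ^ D * Real.exp (-(Z / 2)) * (200 * 2 ^ D) =
      200 * (Z ^ D * Real.exp (-(Z / 2))) := by field_simp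
    linarith
  obtain ⟨Z1, hZ1⟩ := (hlim1.and hlim2).exists_forall_of_atTop
  refine ⟨min (1 / 48) (1 / (8 * C1)), max (max Z1 (K2 + 57)) (max 40 (Zk ^ 2)), by positivity, by
    refine le_trans ?_ ((le_max_left _ _).trans (le_max_right _ _)); norm_num,
    fun z lam h hz hh hlam1 hlam2 N hN => ?_⟩
  have hz40 : 40 ≤ z := ((le_max_left _ _).trans (le_max_right _ _)).trans hz
  have hzk : Zk ^ 2 ≤ z := ((le_max_right _ _).trans (le_max_right _ _)).trans hz
  have hzK : K2 + 57 ≤ z := ((le_max_right _ _).trans (le_max_left _ _)).trans hz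
  obtain ⟨hE1, hE2⟩ := hZ1 z (((le_max_left _ _).trans (le_max_left _ _)).trans hz)
  have hz0 : 0 < z := by linarith
  have hzD0 : 0 < z ^ D := by positivity
  have hh0 : 0 < h := by rw [hh]; exact Real.exp_pos _
  have hsqz : √z ≤ lam := (Real.sqrt_le_sqrt (by linarith)).trans hlam1
  have hsq1 : 1 ≤ √z := by rw [Real.one_le_sqrt]; linarith
  have hlam0 : 1 ≤ lam := hsq1.trans hsqz
  have hh1 : h ≤ 1 := by rw [hh]; exact Real.exp_le_one_iff.2 (by linarith)
  have hlogZ : 1 ≤ Real.log z := by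
    rw [Real.le_log_iff_exp_le hz0]
    linarith [Real.exp_one_lt_d9]
  have hlam48 : lam ≤ z / 48 := by
    calc lam ≤ lam * Real.log z := le_mul_of_one_le_right (zero_le_one.trans hlam0) hlogZ
      _ ≤ min (1 / 48) (1 / (8 * C1)) * z := hlam2
      _ ≤ 1 / 48 * z := by gcongr; exact min_le_left _ _
      _ = _ := by ring
  -- parameters
  set w := ⌈Real.exp (4 * lam)⌉₊ with hw
  have hw1 : Real.exp (4 * lam) ≤ w := Nat.le_ceil _
  have hw2 : (w : ℝ) ≤ 2 * Real.exp (4 * lam) := by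
    have h1 : (w : ℝ) < Real.exp (4 * lam) + 1 := Nat.ceil_lt_add_one (Real.exp_pos _).le
    have h2 : 1 ≤ Real.exp (4 * lam) := Real.one_le_exp (by linarith)
    linarith
  have hw0 : (0 : ℝ) < w := lt_of_lt_of_le (Real.exp_pos _) hw1
  have hwn : 2 ≤ w := by
    have h2 : (2 : ℝ) ≤ w := by
      refine le_trans ?_ hw1
      have := Real.add_one_le_exp (4 * lam)
      linarith
    exact_mod_cast h2
  have hlw1 : 4 * lam ≤ Real.log w := by rw [Real.le_log_iff_exp_le hw0]; exact hw1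
  have hlw2 : Real.log w ≤ 4 * lam + 1 := by
    rw [Real.log_le_iff_le_exp hw0, Real.exp_add]
    have h1 : (2 : ℝ) ≤ Real.exp 1 := by linarith [Real.exp_one_gt_d9]
    have h2 := mul_le_mul_of_nonneg_left h1 (Real.exp_pos (4 * lam)).le
    linarith
  set V0 := ⌈C1 * lam * Real.log z⌉₊ with hV0
  have hV0a : C1 * lam * Real.log z ≤ V0 := Nat.le_ceil _
  have hV0pos : 0 < C1 * lam * Real.log z := by positivity
  have hV0b : (V0 : ℝ) ≤ z / 8 + 1 := by
    have h1 : (V0 : ℝ) < C1 * lam * Real.log z + 1 := Nat.ceil_lt_add_one hV0pos.le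
    have h2 : C1 * lam * Real.log z ≤ z / 8 := by
      calc C1 * lam * Real.log z = C1 * (lam * Real.log z) := by ring
        _ ≤ C1 * (min (1 / 48) (1 / (8 * C1)) * z) := by gcongr
        _ ≤ C1 * (1 / (8 * C1) * z) := by gcongr; exact min_le_right _ _
        _ = _ := by field_simp
    linarith
  have hlamV : lam ≤ V0 := by
    refine le_trans ?_ hV0a
    have h1 : lam ≤ C1 * lam := le_mul_of_one_le_left (zero_le_one.trans hlam0) hC11
    have h2 : C1 * lam ≤ C1 * lam * Real.log z :=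
      le_mul_of_one_le_right (mul_nonneg hC10.le (zero_le_one.trans hlam0)) hlogZ
    exact h1.trans h2
  have hV0c : √z ≤ V0 := hsqz.trans hlamV
  have hV01 : (1 : ℝ) ≤ V0 := hsq1.trans hV0c
  set u0 := V0 + 2 with hu0
  have hu0r : (u0 : ℝ) = V0 + 2 := by rw [hu0]; push_cast; ring
  have hu0b : (u0 : ℝ) ≤ z / 8 + 3 := by linarith
  have hu01 : 1 ≤ u0 := by omega
  have hsmall : 6 * lam + u0 ≤ z / 2 := by linarith
  set U := ⌈z + 2⌉₊ with hU
  have hU1 : z + 2 ≤ U := Nat.le_ceil _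
  have hU2 : (U : ℝ) ≤ z + 3 := by
    have := Nat.ceil_lt_add_one (show 0 ≤ z + 2 by linarith)
    linarith
  have hu0U : u0 ≤ U := by
    have : (u0 : ℝ) ≤ U := by linarith
    exact_mod_cast this
  set N' := ⌈Real.exp ((U : ℝ) + 1)⌉₊ with hN'
  have hN'1 : Real.exp ((U : ℝ) + 1) ≤ N' := Nat.le_ceil _
  have hN'0 : (0 : ℝ) < N' := lt_of_lt_of_le (Real.exp_pos _) hN'1
  have hN'n : 1 ≤ N' := by exact_mod_cast (Nat.ceil_pos.2 (Real.exp_pos _))
  have hN'2 : Real.log N' ≤ z + 5 := by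
    rw [Real.log_le_iff_le_exp hN'0]
    have h1 : (N' : ℝ) < Real.exp ((U : ℝ) + 1) + 1 := Nat.ceil_lt_add_one (Real.exp_pos _).le
    have h2 : Real.exp ((U : ℝ) + 1) ≤ Real.exp (z + 4) := Real.exp_le_exp.2 (by linarith)
    have h3 : Real.exp (z + 5) = Real.exp (z + 4) * Real.exp 1 := by
      rw [← Real.exp_add]; congr 1; ring
    have h4 : 1 ≤ Real.exp (z + 4) := Real.one_le_exp (by linarith)
    have h5 : (2 : ℝ) ≤ Real.exp 1 := by linarith [Real.exp_one_gt_d9]
    have h6 := mul_le_mul_of_nonneg_left h5 (Real.exp_pos (z + 4)).le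
    rw [h3]
    linarith
  have hlN0 : 0 ≤ Real.log N' := Real.log_nonneg (by exact_mod_cast hN'n)
  have hwN' : w ≤ N' := by
    have : (w : ℝ) ≤ N' := by
      refine le_trans ?_ hN'1
      rw [← Real.log_le_iff_le_exp hw0]
      linarith
    exact_mod_cast this
  -- smallness of the Moebius sums
  set ι := 1 / z ^ D with hι
  have hι0 : 0 < ι := by positivity
  have hι1 : ι ≤ 1 := by
    rw [hι, div_le_one hzD0]
    exact one_le_pow₀ (by linarith)
  set δ := Cd * ι with hδ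
  have hδ' : δ = Cd / z ^ D := by rw [hδ, hι]; ring
  have hpowD : z ^ D ≤ Real.log w ^ (2 * D) := by
    rw [pow_mul]
    have h1 : z ≤ Real.log w ^ 2 := by
      have h2 : √z ≤ Real.log w := by linarith
      calc z = √z ^ 2 := (Real.sq_sqrt hz0.le).symm
        _ ≤ _ := by gcongr
    gcongr
  have hδ1 : |mz w| ≤ δ := by
    refine (hmz w hwn).trans ?_
    have : Cz ≤ Cd := le_max_left _ _
    rw [hδ']
    gcongr
  have hδ2 : |ml w + 1| ≤ δ := by
    refine (hml w hwn).trans ?_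
    have : Cl ≤ Cd := le_max_right _ _
    rw [hδ']
    gcongr
  clear_value δ ι N' U u0 V0 w K2 C1 Cd
  have hexp : Real.exp (-lam) ≤ ι := by
    rw [hι, le_div_iff₀ hzD0]
    have h1 : Real.exp (-lam) ≤ Real.exp (-√z) := Real.exp_le_exp.2 (by linarith)
    have h2 : Real.exp (-lam) * z ^ D ≤ Real.exp (-√z) * z ^ D :=
      mul_le_mul_of_nonneg_right h1 hzD0.le
    have h3 : 0 ≤ z ^ D * Real.exp (-√z) := by positivity
    linarith
  have hhι : h ≤ ι := by rw [hh]; exact hexp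
  have hexp2 : 200 * Real.exp (-(z / 2)) ≤ ι := by
    rw [hι, le_div_iff₀ hzD0]
    linarith
  have hε : w * (32 * Real.exp (u0 - z) / h ^ 2) ≤ ι := by
    refine le_trans ?_ hexp2
    have e1 : w * (32 * Real.exp (u0 - z) / h ^ 2) = w * 32 * Real.exp (u0 - z) * Real.exp (2 * lam) := by
      rw [hh, ← Real.exp_nat_mul, div_eq_mul_inv, ← Real.exp_neg]
      have : -(((2 : ℕ) : ℝ) * -lam) = 2 * lam := by push_cast; ring
      rw [this]
      ring
    rw [e1]
    calc w * 32 * Real.exp (u0 - z) * Real.exp (2 * lam) ≤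
          (2 * Real.exp (4 * lam)) * 32 * Real.exp (u0 - z) * Real.exp (2 * lam) := by gcongr
      _ = 64 * (Real.exp (4 * lam) * Real.exp (u0 - z) * Real.exp (2 * lam)) := by ring
      _ = 64 * Real.exp (6 * lam + u0 - z) := by
          rw [← Real.exp_add, ← Real.exp_add]
          congr 2
          ring
      _ ≤ 64 * Real.exp (-(z / 2)) :=
          mul_le_mul_of_nonneg_left (Real.exp_le_exp.2 (by linarith)) (by norm_num)
      _ ≤ 200 * Real.exp (-(z / 2)) := by
          have := Real.exp_pos (-(z / 2))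
          linarith
  have hε2 : 4 * w / Real.exp (z - u0 - 2) ≤ ι := by
    refine le_trans ?_ hexp2
    have e1 : 4 * w / Real.exp (z - u0 - 2) = 4 * w * Real.exp (-(z - u0 - 2)) := by
      rw [Real.exp_neg, div_eq_mul_inv]
    rw [e1]
    calc 4 * w * Real.exp (-(z - u0 - 2)) ≤ 4 * (2 * Real.exp (4 * lam)) * Real.exp (-(z - u0 - 2)) := by
          gcongr
      _ = 8 * Real.exp (4 * lam + (-(z - u0 - 2))) := by rw [Real.exp_add]; ring
      _ ≤ 8 * Real.exp (-(z / 2) + 2) :=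
          mul_le_mul_of_nonneg_left (Real.exp_le_exp.2 (by linarith)) (by norm_num)
      _ = 8 * Real.exp 1 ^ 2 * Real.exp (-(z / 2)) := by
          rw [Real.exp_add, ← Real.exp_nat_mul]
          push_cast
          ring_nf
      _ ≤ 200 * Real.exp (-(z / 2)) := by
          have h1 := Real.exp_one_lt_d9
          have h2 : Real.exp 1 ^ 2 ≤ 2.72 ^ 2 :=
            pow_le_pow_left₀ (Real.exp_pos 1).le (by linarith) 2
          apply mul_le_mul_of_nonneg_right _ (Real.exp_pos _).le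
          linarith
  -- the pointwise error
  set F : ℝ := ∑ u ∈ Finset.Icc u0 U, FF u h N' (Finset.Ioc 0 N') (fun l => aw w l / l) z with hF
  have hpt : |TT h N z - 1 - F| ≤ K2 * (z ^ 2 * ι) := by
    have hzN : Real.exp (z + h) ≤ N := le_trans (Real.exp_le_exp.2 (by linarith)) hN
    have hzN' : Real.exp (z + h) ≤ N' := le_trans (Real.exp_le_exp.2 (by linarith)) hN'1
    rw [TT_indep hh0 hzN' hzN]
    have h1 := KT_ineq hh0 hh1 w N' u0 U (by omega) le_rfl (by linarith) hu01 hu0U hU1 hN'1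
      (by linarith) hδ1 hδ2
    refine h1.trans ?_
    have t1 : (z + 1) * δ ≤ (2 * z) * (Cd * ι) := by rw [hδ]; gcongr; linarith
    have t2 : h * (1 + Real.log w) ≤ ι * (2 * z) :=
      mul_le_mul hhι (by linarith) (by linarith) hι0.le
    have t3 : (1 + z) * (w * (32 * Real.exp (u0 - z) / h ^ 2)) ≤ (2 * z) * ι := by
      apply mul_le_mul (by linarith) hε (by positivity) (by positivity)
    have t4 : u0 * (1 + u0) * (δ + w * (32 * Real.exp (u0 - z) / h ^ 2)) ≤
        z ^ 2 * (Cd * ι + ι) := by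
      rw [hδ]
      apply mul_le_mul _ (by linarith) (by positivity) (by positivity)
      have h5 : (1 : ℝ) ≤ u0 := by exact_mod_cast hu01
      rw [sq]
      exact mul_le_mul (by linarith) (by linarith) (by linarith) hz0.le
    have t5 : 3 * ((Real.log N' + 2) * δ + 4 * w / (Real.exp (z - u0 - 2))) ≤
        3 * ((2 * z) * (Cd * ι) + ι) := by
      rw [hδ]
      gcongr
      linarith
    have e : K2 * (z ^ 2 * ι) = 60 * (Cd + 1) * z ^ 2 * ι := by rw [hK2]; ring
    rw [e]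
    have hZZ : z ≤ z ^ 2 := by
      rw [sq]
      exact le_mul_of_one_le_left hz0.le (by linarith)
    have h11 : 1 ≤ z ^ 2 := by linarith
    have hCι : 0 < Cd * ι := by positivity
    have f1 : z * (Cd * ι) ≤ z ^ 2 * (Cd * ι) := mul_le_mul_of_nonneg_right hZZ hCι.le
    have f2 : z * ι ≤ z ^ 2 * ι := mul_le_mul_of_nonneg_right hZZ hι0.le
    have f3 : 1 * ι ≤ z ^ 2 * ι := mul_le_mul_of_nonneg_right h11 hι0.le
    have f4 : 0 ≤ z ^ 2 * (Cd * ι) := by positivity
    have f5 : 0 ≤ z ^ 2 * ι := by positivity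
    have e2 : 60 * (Cd + 1) * z ^ 2 * ι = 60 * (z ^ 2 * (Cd * ι)) + 60 * (z ^ 2 * ι) := by ring
    rw [e2]
    linarith
  clear_value F
  -- the second moment near the point
  set T := ⌈z⌉₊ with hT
  have hT1 : z ≤ T := Nat.le_ceil _
  have hT2 : (T : ℝ) ≤ z + 1 := (Nat.ceil_lt_add_one hz0.le).le
  have hVT : V0 ≤ T := by
    have : (V0 : ℝ) ≤ T := by linarith
    exact_mod_cast this
  have hsecond : ∫ v in (V0 : ℝ)..(T : ℝ), GX h N' u0 U v ^ 2 ≤ 32 * z * ι ^ 2 := by
    have hc : Continuous fun v => GX h N' u0 U v ^ 2 := (GX_continuous hh0 N' _ U).pow 2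
    rw [← intervalIntegral.sum_integral_adjacent_intervals_Ico (a := fun k : ℕ => (k : ℝ))
      hVT (fun k _ => hc.intervalIntegrable _ _)]
    have hcell : ∀ j ∈ Finset.Ico V0 T, ∫ v in ((j : ℕ) : ℝ)..(((j + 1 : ℕ)) : ℝ), GX h N' u0 U v ^ 2 ≤
        16 * ι ^ 2 := by
      intro j hj
      rw [Finset.mem_Ico] at hj
      have hj1 : (V0 : ℝ) ≤ j := by exact_mod_cast hj.1
      have hj2 : (j : ℝ) + 1 ≤ T := by exact_mod_cast hj.2
      have hj0 : (0 : ℝ) < j := by linarith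
      have hTc := TT_continuous h N'
      have h1 : ∫ v in ((j : ℕ) : ℝ)..(((j + 1 : ℕ)) : ℝ), GX h N' u0 U v ^ 2 ≤
          ∫ v in (j : ℝ)..((j : ℝ) + 1), (8 * (TT h N' v - 1) ^ 2 + 8 * h ^ 2) := by
        rw [Nat.cast_add_one]
        apply intervalIntegral.integral_mono_on (by linarith) (hc.intervalIntegrable _ _)
        · have : Continuous fun v => 8 * (TT h N' v - 1) ^ 2 + 8 * h ^ 2 := by fun_prop
          exact this.intervalIntegrable _ _
        · intro v hv
          have h2 := GX_bound (v := v) hh0 hh1 N' u0 U hu0U (by linarith [hv.2])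
          exact sq_aux h2
      refine h1.trans ?_
      have hi : IntervalIntegrable (fun v => 8 * (TT h N' v - 1) ^ 2) volume (j : ℝ) ((j : ℝ) + 1) := by
        have : Continuous fun v => 8 * (TT h N' v - 1) ^ 2 := by fun_prop
        exact this.intervalIntegrable _ _
      rw [intervalIntegral.integral_add hi intervalIntegrable_const,
        intervalIntegral.integral_const_mul, intervalIntegral.integral_const, smul_eq_mul]
      have hZkj : Zk ≤ j := by
        have h2 : Zk ≤ √z := by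
          rw [← Real.sqrt_sq (by linarith : 0 ≤ Zk)]
          exact Real.sqrt_le_sqrt hzk
        linarith
      have hjlog : Real.log j ≤ 2 * Real.log z := by
        have h2 : (j : ℝ) ≤ z * z := by
          have hjz : (j : ℝ) ≤ z := by linarith
          exact hjz.trans (le_mul_of_one_le_left hz0.le (by linarith))
        calc Real.log j ≤ Real.log (z * z) := Real.log_le_log hj0 h2
          _ = _ := by rw [Real.log_mul hz0.ne' hz0.ne']; ring
      have h3 := hKT j lam h hZkj hh ((Real.sqrt_le_sqrt (by linarith)).trans hlam1) (by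
        calc lam * Real.log j ≤ lam * (2 * Real.log z) := by gcongr
          _ ≤ ck * (C1 * lam * Real.log z) := by
              have e : ck * (C1 * lam * Real.log z) = (2 + ck) * (lam * Real.log z) := by
                rw [hC1]; field_simp
              rw [e]
              have : 0 ≤ ck * (lam * Real.log z) := by positivity
              linarith
          _ ≤ ck * V0 := by gcongr
          _ ≤ ck * j := by gcongr) N' (by
        refine le_trans (Real.exp_le_exp.2 ?_) hN'1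
        linarith)
      have h4 : 1 / (j : ℝ) ^ (4 * D) ≤ ι ^ 2 := by
        have h5 : z ^ (2 * D) ≤ (j : ℝ) ^ (4 * D) := by
          have h6 : z ≤ (j : ℝ) ^ 2 := by
            calc z = √z ^ 2 := (Real.sq_sqrt hz0.le).symm
              _ ≤ (j : ℝ) ^ 2 := pow_le_pow_left₀ (Real.sqrt_nonneg _) (hV0c.trans hj1) 2
          calc z ^ (2 * D) ≤ ((j : ℝ) ^ 2) ^ (2 * D) := pow_le_pow_left₀ hz0.le h6 _
            _ = _ := by rw [← pow_mul]; congr 1; ring
        have e : ι ^ 2 = 1 / z ^ (2 * D) := by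
          rw [hι, div_pow, one_pow, ← pow_mul, mul_comm D 2]
        rw [e]
        exact one_div_le_one_div_of_le (by positivity) h5
      have h5 : h ^ 2 ≤ ι ^ 2 := pow_le_pow_left₀ hh0.le hhι 2
      linarith
    refine (Finset.sum_le_sum hcell).trans ?_
    rw [Finset.sum_const, Nat.card_Ico, nsmul_eq_mul]
    have h1 : ((T - V0 : ℕ) : ℝ) ≤ 2 * z := by
      have : ((T - V0 : ℕ) : ℝ) ≤ (T : ℝ) := by exact_mod_cast Nat.sub_le T V0
      linarith
    calc ((T - V0 : ℕ) : ℝ) * (16 * ι ^ 2) ≤ (2 * z) * (16 * ι ^ 2) := by gcongr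
      _ = _ := by ring
  -- from the discrete average to the integral
  have hLpnn : 0 ≤ Lp h N' := by unfold Lp; positivity
  have hlogw1 : Real.log ((w + 1 : ℕ) : ℝ) ≤ Real.log ((N' + 1 : ℕ) : ℝ) :=
    Real.log_le_log (by positivity) (by exact_mod_cast (by omega : w + 1 ≤ N' + 1))
  have hlogN1 : Real.log ((N' + 1 : ℕ) : ℝ) ≤ z + 6 := by
    have h1 := (log_gap hN'n).2.1
    have h2 : 1 / (N' : ℝ) ≤ 1 := by
      rw [div_le_one hN'0]
      exact_mod_cast hN'n
    linarith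
  have hlogw0 : 0 ≤ Real.log ((w + 1 : ℕ) : ℝ) := Real.log_nonneg (by push_cast; linarith)
  have hdisc := disc (g := fun v => GX h N' u0 U (z - v))
    ((GX_continuous hh0 N' u0 U).comp (by fun_prop : Continuous fun v : ℝ => z - v)) hLpnn w N'
    (by omega) hwN' (by
      intro v v' hv hv'
      have h1 := GX_lip (v := z - v) (w := z - v') hh0 N' u0 U hN'n hu0U (by linarith) (by linarith)
      have e : |z - v - (z - v')| = |v - v'| := by
        rw [show z - v - (z - v') = -(v - v') by ring, abs_neg]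
      rwa [e] at h1)
  have hint : ∫ v in (Real.log ((w + 1 : ℕ) : ℝ))..(Real.log ((N' + 1 : ℕ) : ℝ)),
      GX h N' u0 U (z - v) ^ 2 ≤ 32 * z * ι ^ 2 := by
    rw [intervalIntegral.integral_comp_sub_left (fun v => GX h N' u0 U v ^ 2) z]
    rw [hu0] at hu0U hsecond ⊢
    refine le_trans (int_GX hh0 hh1 N' V0 U T hu0U hVT (by linarith) (by linarith)) hsecond
  have hLw : Lp h N' / w ≤ 3 * z ^ 2 * ι := by
    have h1 : Lp h N' ≤ 3 * z ^ 2 / h ^ 2 := by
      unfold Lp
      have h2 : (Real.log N' + 1) * (Real.log N' + 2) ≤ 2 * z ^ 2 := poly_aux hlN0 hN'2 hz40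
      have h3 : 1 ≤ z ^ 2 / h ^ 2 := by
        rw [one_le_div (by positivity)]
        exact pow_le_pow_left₀ hh0.le (by linarith) 2
      calc (Real.log N' + 1) * (Real.log N' + 2) / h ^ 2 + 1 ≤ 2 * z ^ 2 / h ^ 2 + z ^ 2 / h ^ 2 := by
            gcongr
        _ = _ := by ring
    have h2 : Lp h N' / w ≤ (3 * z ^ 2 / h ^ 2) / Real.exp (4 * lam) := by gcongr
    refine h2.trans ?_
    have e : (3 * z ^ 2 / h ^ 2) / Real.exp (4 * lam) = 3 * z ^ 2 * (Real.exp (-lam) * Real.exp (-lam)) := by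
      rw [hh, ← Real.exp_nat_mul, ← Real.exp_add, div_div, ← Real.exp_add, div_eq_mul_inv, ← Real.exp_neg]
      congr 2
      push_cast
      ring
    rw [e]
    have h3 : Real.exp (-lam) * Real.exp (-lam) ≤ ι * 1 :=
      mul_le_mul hexp (hexp.trans hι1) (Real.exp_pos _).le hι0.le
    calc 3 * z ^ 2 * (Real.exp (-lam) * Real.exp (-lam)) ≤ 3 * z ^ 2 * (ι * 1) := by gcongr
      _ = _ := by ring
  have hLw0 : 0 ≤ Lp h N' / w := by positivity
  have hsumG : ∑ l ∈ Finset.Ioc w N', 1 / (l : ℝ) * GX h N' u0 U (z - Real.log l) ^ 2 ≤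
      200 * z ^ 5 * ι ^ 2 := by
    refine hdisc.trans ?_
    have h1 : (Lp h N' / w) ^ 2 ≤ (3 * z ^ 2 * ι) ^ 2 := pow_le_pow_left₀ hLw0 hLw 2
    have h2 : Real.log ((N' + 1 : ℕ) : ℝ) - Real.log ((w + 1 : ℕ) : ℝ) ≤ 2 * z := by linarith
    have h3 : 0 ≤ Real.log ((N' + 1 : ℕ) : ℝ) - Real.log ((w + 1 : ℕ) : ℝ) := by linarith
    have h4 : 4 * (Lp h N' / w) ^ 2 * (Real.log ((N' + 1 : ℕ) : ℝ) - Real.log ((w + 1 : ℕ) : ℝ)) ≤
        4 * (3 * z ^ 2 * ι) ^ 2 * (2 * z) := by gcongr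
    have h5 : z ≤ z ^ 5 := by
      calc z = z ^ 1 := (pow_one z).symm
        _ ≤ z ^ 5 := pow_le_pow_right₀ (by linarith) (by norm_num)
    have h6 : z * ι ^ 2 ≤ z ^ 5 * ι ^ 2 := mul_le_mul_of_nonneg_right h5 (by positivity)
    have h7 : 0 ≤ z ^ 5 * ι ^ 2 := by positivity
    have e : 4 * (3 * z ^ 2 * ι) ^ 2 * (2 * z) = 72 * (z ^ 5 * ι ^ 2) := by ring
    rw [e] at h4
    linarith
  -- the sum `F`
  have hFeq : F = ∑ l ∈ Finset.Ioc w N', (aw w l / l) * GX h N' u0 U (z - Real.log l) := by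
    rw [hF, sum_FF hh0]
    symm
    apply Finset.sum_subset (Finset.Ioc_subset_Ioc_left (Nat.zero_le w))
    intro l hl hl2
    rw [Finset.mem_Ioc] at hl
    have hlw : l ≤ w := by
      by_contra hc
      exact hl2 (Finset.mem_Ioc.2 ⟨not_le.1 hc, hl.2⟩)
    rw [aw_zero_of hl.1 hlw]
    simp
  have hFsq : F ^ 2 ≤ (57 * z ^ 5 * ι) ^ 2 := by
    have hcs := Finset.sum_mul_sq_le_sq_mul_sq (Finset.Ioc w N')
      (fun l : ℕ => Real.sqrt l * (aw w l / l)) (fun l : ℕ => Real.sqrt (1 / l) * GX h N' u0 U (z - Real.log l))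
    have e1 : ∑ l ∈ Finset.Ioc w N', Real.sqrt l * (aw w l / l) *
        (Real.sqrt (1 / l) * GX h N' u0 U (z - Real.log l)) = F := by
      rw [hFeq]
      refine Finset.sum_congr rfl fun l hl => ?_
      rw [Finset.mem_Ioc] at hl
      have hl0 : (0 : ℝ) < l := by exact_mod_cast (by omega : 0 < l)
      have e2 : Real.sqrt l * Real.sqrt (1 / l) = 1 := by
        rw [← Real.sqrt_mul hl0.le, mul_one_div_cancel hl0.ne', Real.sqrt_one]
      calc _ = (Real.sqrt l * Real.sqrt (1 / l)) * ((aw w l / l) * GX h N' u0 U (z - Real.log l)) := by ring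
        _ = _ := by rw [e2, one_mul]
    have e2 : ∑ l ∈ Finset.Ioc w N', (Real.sqrt l * (aw w l / l)) ^ 2 =
        ∑ l ∈ Finset.Ioc w N', (l : ℝ) * (aw w l / l) ^ 2 := by
      refine Finset.sum_congr rfl fun l _ => ?_
      rw [mul_pow, Real.sq_sqrt (Nat.cast_nonneg l)]
    have e3 : ∑ l ∈ Finset.Ioc w N', (Real.sqrt (1 / l) * GX h N' u0 U (z - Real.log l)) ^ 2 =
        ∑ l ∈ Finset.Ioc w N', 1 / (l : ℝ) * GX h N' u0 U (z - Real.log l) ^ 2 := by
      refine Finset.sum_congr rfl fun l _ => ?_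
      rw [mul_pow, Real.sq_sqrt (by positivity)]
    rw [e1, e2, e3] at hcs
    have h1 : ∑ l ∈ Finset.Ioc w N', (l : ℝ) * (aw w l / l) ^ 2 ≤ 16 * z ^ 4 := by
      have h2 : ∑ l ∈ Finset.Ioc w N', (l : ℝ) * (aw w l / l) ^ 2 ≤
          ∑ l ∈ Finset.Ioc 0 N', (l : ℝ) * (aw w l / l) ^ 2 :=
        Finset.sum_le_sum_of_subset_of_nonneg (Finset.Ioc_subset_Ioc_left (Nat.zero_le w))
          fun l _ _ => by positivity
      refine h2.trans ((aw_sum w N' hN'n).trans ?_)
      calc (1 + Real.log N') ^ 4 ≤ (2 * z) ^ 4 := by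
            gcongr
            linarith
        _ = _ := by ring
    have h2 : 0 ≤ ∑ l ∈ Finset.Ioc w N', 1 / (l : ℝ) * GX h N' u0 U (z - Real.log l) ^ 2 :=
      Finset.sum_nonneg fun l _ => by positivity
    calc F ^ 2 ≤ _ := hcs
      _ ≤ (16 * z ^ 4) * (200 * z ^ 5 * ι ^ 2) := mul_le_mul h1 hsumG h2 (by positivity)
      _ = 3200 * (z ^ 9 * ι ^ 2) := by ring
      _ ≤ 3249 * (z ^ 10 * ι ^ 2) := by
          have h3 : z ^ 9 ≤ z ^ 10 := pow_le_pow_right₀ (by linarith) (by norm_num)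
          have h4 : z ^ 9 * ι ^ 2 ≤ z ^ 10 * ι ^ 2 := mul_le_mul_of_nonneg_right h3 (by positivity)
          have h5 : 0 ≤ z ^ 10 * ι ^ 2 := by positivity
          linarith
      _ = _ := by ring
  have hFabs : |F| ≤ 57 * z ^ 5 * ι := abs_le_of_sq_le_sq hFsq (by positivity)
  -- conclusion
  have e : TT h N z - 1 = (TT h N z - 1 - F) + F := by ring
  rw [e]
  refine (abs_add_le _ _).trans ?_
  have h1 : z ^ 2 * ι ≤ z ^ 5 * ι :=
    mul_le_mul_of_nonneg_right (pow_le_pow_right₀ (by linarith) (by norm_num)) hι0.le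
  calc |TT h N z - 1 - F| + |F| ≤ K2 * (z ^ 2 * ι) + 57 * z ^ 5 * ι := add_le_add hpt hFabs
    _ ≤ K2 * (z ^ 5 * ι) + 57 * z ^ 5 * ι := by
        have : 0 ≤ K2 := by rw [hK2]; positivity
        have := mul_le_mul_of_nonneg_left h1 this
        linarith
    _ = (K2 + 57) * (z ^ 5 * ι) := by ring
    _ ≤ z * (z ^ 5 * ι) := mul_le_mul_of_nonneg_right hzK (by positivity)
    _ = 1 / z ^ A := by
        rw [hι, hD, pow_add]
        field_simp

end Pool.Agent.Y895.PM
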