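import Pool.Agent.W66.QD
import Pool.Agent.TH888.R.Mean
import Pool.Agent.W66.RC
import Pool.Agent.H447R2.ML.P2

set_option autoImplicit false

/-!
# Counting in blocks of consecutive integers
-/

open Filter Topology Set MeasureTheory Metric
open scoped Real

namespace Pool.Agent.Y895.PM

open Pool.Agent.W66
open Pool.Agent.H305R2 (ff NN roughPart mem_Ioc_log measurable_ff ff_nonneg ff_le_one LL)

/-- indicator of a prime rough part -/
noncomputable def fn (q n : ℕ) : ℝ := if (roughPart q n).Prime then 1 else 0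

lemma fn_nonneg (q n : ℕ) : 0 ≤ fn q n := by unfold fn; split_ifs <;> norm_num

lemma fn_le_one (q n : ℕ) : fn q n ≤ 1 := by unfold fn; split_ifs <;> norm_num

lemma fn01 (q n : ℕ) : fn q n = 0 ∨ fn q n = 1 := by
  unfold fn
  split_ifs
  · exact Or.inr rfl
  · exact Or.inl rfl

/-- number of integers of a block with prime rough part -/
noncomputable def cnt (q B L : ℕ) : ℝ := ∑ D ∈ Finset.range L, fn q (B + D)

lemma cnt_nonneg (q B L : ℕ) : 0 ≤ cnt q B L := Finset.sum_nonneg fun _ _ => fn_nonneg _ _

lemma ff_bdd (q : ℕ) (x : ℝ) : |ff q x| ≤ 1 := by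
  rw [abs_of_nonneg (ff_nonneg q x)]; exact ff_le_one q x

lemma ffexp_ii (q : ℕ) (x y : ℝ) : IntervalIntegrable (fun u => ff q u * Real.exp u) volume x y :=
  (ii_of_bdd (measurable_ff q) (ff_bdd q) x y).mul_continuousOn (by fun_prop)

lemma cell (q : ℕ) {n : ℕ} (hn : 1 ≤ n) :
    ∫ u in (Real.log n)..(Real.log ((n + 1 : ℕ) : ℝ)), ff q u * Real.exp u = fn q n := by
  have hn0 : (0 : ℝ) < n := by exact_mod_cast hn
  have hle : Real.log n ≤ Real.log ((n + 1 : ℕ) : ℝ) :=
    Real.log_le_log hn0 (by push_cast; linarith)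
  have h1 : ∫ u in (Real.log n)..(Real.log ((n + 1 : ℕ) : ℝ)), ff q u * Real.exp u =
      ∫ u in (Real.log n)..(Real.log ((n + 1 : ℕ) : ℝ)), fn q n * Real.exp u := by
    rw [intervalIntegral.integral_of_le hle, intervalIntegral.integral_of_le hle]
    apply setIntegral_congr_fun measurableSet_Ioc
    intro u hu
    have h2 : NN u = n := (mem_Ioc_log hn).1 hu
    simp only [ff, fn, h2]
  rw [h1, intervalIntegral.integral_const_mul, integral_exp, Real.exp_log hn0,
    Real.exp_log (by positivity)]
  push_cast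
  ring

lemma cnt_integral (q : ℕ) {B : ℕ} (hB : 1 ≤ B) (L : ℕ) :
    ∫ u in (Real.log B)..(Real.log ((B + L : ℕ) : ℝ)), ff q u * Real.exp u = cnt q B L := by
  have h1 := intervalIntegral.sum_integral_adjacent_intervals
    (a := fun k : ℕ => Real.log ((B + k : ℕ) : ℝ)) (n := L) (μ := volume)
    (f := fun u => ff q u * Real.exp u) (fun k _ => ffexp_ii q _ _)
  simp only [Nat.add_zero] at h1
  rw [← h1]
  unfold cnt
  refine Finset.sum_congr rfl fun k _ => ?_
  exact cell q (by omega : 1 ≤ B + k)

/-- from small pieces to the exponential weight -/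
lemma pieces {g : ℝ → ℝ} (hg : Measurable g) {M R a b : ℝ} (hM : ∀ x, |g x| ≤ M) (hR : 0 ≤ R)
    (hab : a ≤ b) {n : ℕ} (hn : 0 < n)
    (h : ∀ i : ℕ, i < n →
      |∫ u in (a + i * ((b - a) / n))..(a + ((i + 1 : ℕ) : ℝ) * ((b - a) / n)), g u| ≤
        R * ((b - a) / n)) :
    |∫ u in a..b, g u * Real.exp u| ≤ (M * ((b - a) / n) + R) * (Real.exp b - Real.exp a) := by
  set η := (b - a) / n with hη
  have hn0 : (0 : ℝ) < n := by exact_mod_cast hn
  have hη0 : 0 ≤ η := div_nonneg (by linarith) hn0.le
  have hM0 : 0 ≤ M := (abs_nonneg _).trans (hM 0)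
  have hgi : ∀ x y, IntervalIntegrable g volume x y := fun x y => ii_of_bdd hg hM x y
  have hgei : ∀ x y, IntervalIntegrable (fun u => g u * Real.exp u) volume x y :=
    fun x y => (hgi x y).mul_continuousOn (by fun_prop)
  have h1 := intervalIntegral.sum_integral_adjacent_intervals
    (a := fun k : ℕ => a + k * η) (n := n) (μ := volume)
    (f := fun u => g u * Real.exp u) (fun k _ => hgei _ _)
  have e0 : a + ((0 : ℕ) : ℝ) * η = a := by push_cast; ring
  have en : a + (n : ℝ) * η = b := by rw [hη]; field_simp; ring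
  simp only [e0, en] at h1
  rw [← h1]
  refine (Finset.abs_sum_le_sum_abs _ _).trans ?_
  have h2 : ∀ i ∈ Finset.range n, |∫ u in (a + (i : ℝ) * η)..(a + ((i + 1 : ℕ) : ℝ) * η),
      g u * Real.exp u| ≤ (M * η + R) * (Real.exp (a + ((i + 1 : ℕ) : ℝ) * η) -
        Real.exp (a + (i : ℝ) * η)) := by
    intro i hi
    rw [Finset.mem_range] at hi
    set x := a + (i : ℝ) * η with hx
    set y := a + ((i + 1 : ℕ) : ℝ) * η with hy
    have hyx : y - x = η := by rw [hx, hy]; push_cast; ring
    have hxy : x ≤ y := by linarith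
    have hexy : Real.exp x ≤ Real.exp y := Real.exp_le_exp.2 hxy
    have e : ∫ u in x..y, g u * Real.exp u =
        (∫ u in x..y, g u * (Real.exp u - Real.exp x)) + Real.exp x * ∫ u in x..y, g u := by
      rw [← intervalIntegral.integral_const_mul, ← intervalIntegral.integral_add]
      · congr 1
        ext u
        ring
      · exact (hgi x y).mul_continuousOn (by fun_prop)
      · exact (hgi x y).const_mul _
    have h3 : |∫ u in x..y, g u * (Real.exp u - Real.exp x)| ≤
        M * (Real.exp y - Real.exp x) * |y - x| := by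
      have := intervalIntegral.norm_integral_le_of_norm_le_const (a := x) (b := y)
        (C := M * (Real.exp y - Real.exp x)) (f := fun u => g u * (Real.exp u - Real.exp x))
        (fun u hu => by
          rw [Set.uIoc_of_le hxy] at hu
          have h4 : Real.exp x ≤ Real.exp u := Real.exp_le_exp.2 hu.1.le
          have h5 : Real.exp u ≤ Real.exp y := Real.exp_le_exp.2 hu.2
          rw [Real.norm_eq_abs, abs_mul, abs_of_nonneg (by linarith : 0 ≤ Real.exp u - Real.exp x)]
          exact mul_le_mul (hM u) (by linarith) (by linarith) hM0)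
      rwa [Real.norm_eq_abs] at this
    rw [hyx, abs_of_nonneg hη0] at h3
    have h4 := h i hi
    have h5 : Real.exp x * η ≤ Real.exp y - Real.exp x := by
      have e2 : Real.exp y = Real.exp x * Real.exp η := by
        rw [← Real.exp_add]; congr 1; linarith
      have h6 := Real.add_one_le_exp η
      have h7 := mul_le_mul_of_nonneg_left h6 (Real.exp_pos x).le
      rw [e2]
      linarith
    rw [e]
    refine (abs_add_le _ _).trans ?_
    rw [abs_mul, abs_of_pos (Real.exp_pos x)]
    have h6 : Real.exp x * |∫ u in x..y, g u| ≤ R * (Real.exp y - Real.exp x) := by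
      calc Real.exp x * |∫ u in x..y, g u| ≤ Real.exp x * (R * η) :=
            mul_le_mul_of_nonneg_left h4 (Real.exp_pos x).le
        _ = R * (Real.exp x * η) := by ring
        _ ≤ _ := mul_le_mul_of_nonneg_left h5 hR
    calc _ ≤ M * (Real.exp y - Real.exp x) * η + R * (Real.exp y - Real.exp x) := add_le_add h3 h6
      _ = _ := by ring
  refine (Finset.sum_le_sum h2).trans ?_
  rw [← Finset.mul_sum, Finset.sum_range_sub (fun i : ℕ => Real.exp (a + (i : ℝ) * η)) n]
  simp only [e0, en]
  exact le_rfl

end Pool.Agent.Y895.PM
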