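import Pool.Agent.Y895.PM.G1a
import Pool.Agent.Y895.PM.B1

set_option autoImplicit false

/-!
# Counting in blocks of consecutive integers, for a general base
-/

open Filter Topology Set MeasureTheory Metric
open scoped Real

namespace Pool.Agent.Y895.PM

open Pool.Agent.W66
open Pool.Agent.H305R2 (ff NN roughPart measurable_ff ff_nonneg LL)

/-- **Counting in every block of relative length at least `exp (- κ q / log q)`.** -/
theorem blockb {b : ℕ} (hb : 2 ≤ b) : ∃ κ : ℝ, 0 < κ ∧ ∀ c C : ℝ, 0 < c → 0 < C →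
    ∃ K : ℝ, 0 < K ∧ ∃ P : ℕ, ∀ q ≥ P, ∀ A : ℕ, c * (b : ℝ) ^ q ≤ A → (A : ℝ) ≤ C * (b : ℝ) ^ q →
    ∃ μ : ℝ,
    |μ - Real.exp Real.eulerMascheroniConstant / Real.log b * (Real.log q / q)| ≤ K * (1 / q) ∧
    ∀ B L : ℕ, A ≤ B → B + L ≤ 2 * A →
      (b : ℝ) ^ q * Real.exp (-(κ * q / Real.log q)) ≤ L →
      |cnt q B L - μ * L| ≤ K * (Real.log q / q ^ 2) * L := by
  have hl2 : 0 < Real.log 2 := Real.log_pos (by norm_num)
  have hl2b := Real.log_two_lt_d9
  have hbr : (2 : ℝ) ≤ b := by exact_mod_cast hb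
  have hlb : 0 < Real.log b := Real.log_pos (by linarith)
  obtain ⟨κ1, K1, hκ1, hK1, P1, hP1⟩ := window (c1 := Real.log b / 2) (by positivity)
  set κ := κ1 * (Real.log b / 2) / 8 with hκ
  have hκ0 : 0 < κ := by positivity
  refine ⟨κ, hκ0, fun c C hc hC => ?_⟩
  set D := |Real.log c| + |Real.log C| with hD
  have hD0 : 0 ≤ D := by positivity
  obtain ⟨K2, hK2, hev2⟩ := Pool.Agent.TH888.R.LL_rate hlb D
  set cc := Real.exp Real.eulerMascheroniConstant / Real.log b with hcc
  have hcc0 : 0 < cc := by positivity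
  have hlogq : ∀ᶠ q : ℕ in atTop, 1 ≤ Real.log q :=
    (Real.tendsto_log_atTop.comp tendsto_natCast_atTop_atTop).eventually_ge_atTop 1
  have hlogq2 : ∀ᶠ q : ℕ in atTop, Real.log q ≤ q := by
    filter_upwards [eventually_ge_atTop 1] with q hq
    have hq0 : (0 : ℝ) < q := by exact_mod_cast hq
    have := Real.log_le_sub_one_of_pos hq0
    linarith
  have hqlarge : ∀ᶠ q : ℕ in atTop, max (2 * D / Real.log b) (Real.log b + D) ≤ (q : ℝ) :=
    tendsto_natCast_atTop_atTop.eventually_ge_atTop _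
  have hqlarge2 : ∀ᶠ q : ℕ in atTop, 4 / Real.log b ≤ (q : ℝ) :=
    tendsto_natCast_atTop_atTop.eventually_ge_atTop _
  have hexp : ∀ᶠ q : ℕ in atTop, (q : ℝ) ^ 2 + 1 + 2 * C ≤ Real.exp (κ * q / Real.log q) := by
    have h1 : ∀ᶠ x : ℝ in atTop, 3 * Real.log x ^ 2 ≤ κ * x := by
      have h1 := (Real.isLittleO_pow_log_id_atTop (n := 2)).bound (show (0 : ℝ) < κ / 3 by positivity)
      filter_upwards [h1, eventually_ge_atTop 1] with x hx hx1
      rw [Real.norm_of_nonneg (by positivity), id, Real.norm_of_nonneg (by linarith)] at hx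
      linarith
    have h2C : ∀ᶠ q : ℕ in atTop, 1 + 2 * C ≤ (q : ℝ) :=
      tendsto_natCast_atTop_atTop.eventually_ge_atTop _
    filter_upwards [tendsto_natCast_atTop_atTop.eventually h1, hlogq, eventually_ge_atTop 2, h2C]
      with q h1 h2 h3 h2C
    have hq2 : (2 : ℝ) ≤ q := by exact_mod_cast h3
    have hq0 : (0 : ℝ) < q := by linarith
    have h4 : 3 * Real.log q ≤ κ * q / Real.log q := by
      rw [le_div_iff₀ (by linarith)]
      linarith
    have h5 : Real.exp (3 * Real.log q) = (q : ℝ) ^ 3 := by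
      rw [mul_comm, Real.exp_mul, Real.exp_log hq0]
      norm_cast
    have h6 : (q : ℝ) ^ 2 + 1 + 2 * C ≤ (q : ℝ) ^ 3 := by nlinarith
    calc (q : ℝ) ^ 2 + 1 + 2 * C ≤ (q : ℝ) ^ 3 := h6
      _ = Real.exp (3 * Real.log q) := h5.symm
      _ ≤ _ := Real.exp_le_exp.2 h4
  obtain ⟨P2, hP2⟩ := (hlogq.and (hlogq2.and (hexp.and (hev2.and
    (hqlarge.and (hqlarge2.and (eventually_ge_atTop 8))))))).exists_forall_of_atTop
  refine ⟨(K1 + K2) + (K1 + (1 + (cc + (K1 + K2)))), by positivity, max P1 P2,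
    fun q hq A hA1 hA2 => ?_⟩
  obtain ⟨b1, b2, b3, b4, b6, b7, b5⟩ := hP2 q ((le_max_right _ _).trans hq)
  have b61 : 2 * D / Real.log b ≤ q := (le_max_left _ _).trans b6
  have b62 : Real.log b + D ≤ q := (le_max_right _ _).trans b6
  have hq8 : (8 : ℝ) ≤ q := by exact_mod_cast b5
  have hq0 : (0 : ℝ) < q := by linarith
  have hA0 : (0 : ℝ) < A := lt_of_lt_of_le (by positivity) hA1
  have hA1' : 1 ≤ A := by exact_mod_cast hA0
  set Y := Real.log A with hY
  have hYr := log_range hb hc hC hA1 hA2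
  obtain ⟨hYr1, hYr2⟩ := abs_le.1 hYr
  have hYq : Real.log b / 2 * q ≤ Y := by
    rw [div_le_iff₀ hlb] at b61
    linarith
  have hY2 : 2 ≤ Y := by
    rw [div_le_iff₀ hlb] at b7
    linarith
  have hYq3 : Y ≤ (q : ℝ) * q := by
    have h1 : Real.log b * q ≤ Real.log b * q := le_rfl
    have h2 : (Real.log b + D) * q ≤ q * q := mul_le_mul_of_nonneg_right b62 hq0.le
    have h3 : D ≤ D * q := le_mul_of_one_le_right hD0 (by linarith)
    linarith
  have hY0 : 0 < Y := by linarith
  have hlY : Real.log Y ≤ 2 * Real.log q := by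
    calc Real.log Y ≤ Real.log (q * q) := Real.log_le_log hY0 hYq3
      _ = 2 * Real.log q := by rw [Real.log_mul hq0.ne' hq0.ne']; ring
  have hlY0 : 0 < Real.log Y := Real.log_pos (by linarith)
  obtain ⟨μ, hμ⟩ := hP1 q ((le_max_left _ _).trans hq) Y hYq
  set r := Real.log q / (q : ℝ) ^ 2 with hr
  have hr0 : 0 < r := by
    have : 0 < Real.log q := by linarith
    positivity
  have hr1 : r ≤ 1 / q := by
    rw [hr, div_le_div_iff₀ (by positivity) hq0, one_mul, sq]
    exact mul_le_mul_of_nonneg_right b2 hq0.le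
  have hr2 : 1 / (q : ℝ) ^ 2 ≤ r := by rw [hr]; gcongr
  have h1q : 1 / (q : ℝ) ≤ 1 := by rw [div_le_one hq0]; linarith
  have hμc : |μ - cc * (Real.log q / q)| ≤ (K1 + K2) * (1 / q) := by
    have h1 := hμ Y (Y + 1) le_rfl (by linarith) (by
      rw [add_sub_cancel_left]
      apply Real.exp_le_one_iff.2
      rw [neg_nonpos]
      positivity)
    have h2 := b4 Y hYr
    have h3 : LL q Y = ∫ u in Y..(Y + 1), ff q u := by
      unfold Pool.Agent.H305R2.LL
      rw [intervalIntegral.integral_of_le (by linarith)]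
    rw [h3] at h2
    rw [add_sub_cancel_left, mul_one, mul_one] at h1
    have e : μ - cc * (Real.log q / q) = ((∫ u in Y..(Y + 1), ff q u) - cc * (Real.log q / q)) -
      ((∫ u in Y..(Y + 1), ff q u) - μ) := by ring
    rw [e]
    refine (abs_sub _ _).trans ?_
    have h4 : K1 * r ≤ K1 * (1 / q) := mul_le_mul_of_nonneg_left hr1 hK1.le
    have h5 : K2 / q = K2 * (1 / q) := by ring
    rw [h5] at h2
    linarith
  have hμabs : |μ| ≤ cc + (K1 + K2) := by
    have hw0 : 0 ≤ Real.log q / q := by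
      have : 0 < Real.log q := by linarith
      positivity
    have hw1 : Real.log q / q ≤ 1 := by rw [div_le_one hq0]; exact b2
    have e : μ = (μ - cc * (Real.log q / q)) + cc * (Real.log q / q) := by ring
    rw [e]
    refine (abs_add_le _ _).trans ?_
    rw [abs_of_nonneg (by positivity : 0 ≤ cc * (Real.log q / q))]
    have h1 : (K1 + K2) * (1 / q) ≤ (K1 + K2) * 1 := mul_le_mul_of_nonneg_left h1q (by positivity)
    have h2 : cc * (Real.log q / q) ≤ cc * 1 := mul_le_mul_of_nonneg_left hw1 hcc0.le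
    linarith
  refine ⟨μ, ?_, fun B L hB hBL hL => ?_⟩
  · refine hμc.trans (mul_le_mul_of_nonneg_right ?_ (by positivity))
    have : 0 ≤ K1 + (1 + (cc + (K1 + K2))) := by positivity
    linarith
  have hL0 : (0 : ℝ) < L := lt_of_lt_of_le (by positivity) hL
  have hL1 : 1 ≤ L := by
    have : 0 < L := by exact_mod_cast hL0
    omega
  have hB1 : 1 ≤ B := hA1'.trans hB
  obtain ⟨g3, g4⟩ := log_len hB1 hL1
  have hB0 : (0 : ℝ) < B := by exact_mod_cast hB1
  have g1 : Y ≤ Real.log B := Real.log_le_log hA0 (by exact_mod_cast hB)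
  have g2 : Real.log ((B + L : ℕ) : ℝ) ≤ Y + Real.log 2 := by
    have h1 : ((B + L : ℕ) : ℝ) ≤ 2 * A := by exact_mod_cast hBL
    calc Real.log ((B + L : ℕ) : ℝ) ≤ Real.log (2 * A) := Real.log_le_log (by positivity) h1
      _ = Y + Real.log 2 := by rw [Real.log_mul (by norm_num) hA0.ne']; ring
  set a := Real.log B with ha
  set b' := Real.log ((B + L : ℕ) : ℝ) with hb'
  have hexpa : Real.exp a = B := Real.exp_log hB0
  have hexpb : Real.exp b' = B + L := by rw [hb', Real.exp_log (by positivity)]; push_cast; ring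
  set E := Real.exp (-(κ * q / Real.log q)) with hE
  have hE0 : 0 < E := Real.exp_pos _
  have hEinv : E * ((q : ℝ) ^ 2 + 1 + 2 * C) ≤ 1 := by
    calc E * ((q : ℝ) ^ 2 + 1 + 2 * C) ≤ E * Real.exp (κ * q / Real.log q) :=
          mul_le_mul_of_nonneg_left b3 hE0.le
      _ = 1 := by rw [hE, ← Real.exp_add]; simp
  have hba : E * E ≤ b' - a := by
    refine le_trans ?_ g3
    rw [le_div_iff₀ (by positivity)]
    have h1 : ((B + L : ℕ) : ℝ) ≤ 2 * (C * (b : ℝ) ^ q) := by
      have h2 : ((B + L : ℕ) : ℝ) ≤ 2 * A := by exact_mod_cast hBL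
      linarith
    have h2 : E * (2 * C) ≤ 1 := by
      have : 0 ≤ E * ((q : ℝ) ^ 2 + 1) := by positivity
      linarith
    calc E * E * ((B + L : ℕ) : ℝ) ≤ E * E * (2 * (C * (b : ℝ) ^ q)) :=
          mul_le_mul_of_nonneg_left h1 (by positivity)
      _ = (E * (2 * C)) * ((b : ℝ) ^ q * E) := by ring
      _ ≤ 1 * ((b : ℝ) ^ q * E) := mul_le_mul_of_nonneg_right h2 (by positivity)
      _ ≤ L := by rw [one_mul]; exact hL
  have hba0 : 0 < b' - a := lt_of_lt_of_le (by positivity) hba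
  have hba1 : b' - a ≤ 1 := by linarith
  set n := ⌈(b' - a) * (q : ℝ) ^ 2⌉₊ with hn
  have hn0 : 0 < n := Nat.ceil_pos.2 (by positivity)
  have hn0' : (0 : ℝ) < n := by exact_mod_cast hn0
  have hn1 : (b' - a) * (q : ℝ) ^ 2 ≤ n := Nat.le_ceil _
  have hn2 : (n : ℝ) ≤ (q : ℝ) ^ 2 + 1 := by
    have h1 : (n : ℝ) < (b' - a) * (q : ℝ) ^ 2 + 1 := Nat.ceil_lt_add_one (by positivity)
    have h2 : (b' - a) * (q : ℝ) ^ 2 ≤ 1 * (q : ℝ) ^ 2 :=
      mul_le_mul_of_nonneg_right hba1 (by positivity)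
    linarith
  have hη1 : (b' - a) / n ≤ 1 / (q : ℝ) ^ 2 := by
    rw [div_le_div_iff₀ hn0' (by positivity)]
    linarith
  have hη2 : Real.exp (-(κ1 * Y / Real.log Y)) ≤ (b' - a) / n := by
    have h1 : 4 * (κ * q / Real.log q) ≤ κ1 * Y / Real.log Y := by
      have e : 4 * (κ * q / Real.log q) = κ1 * (Real.log b / 2 * q) / (2 * Real.log q) := by
        rw [hκ]; ring
      rw [e]
      gcongr
    have h2 : E ≤ 1 / ((q : ℝ) ^ 2 + 1) := by
      rw [le_div_iff₀ (by positivity)]
      have : 0 ≤ E * (2 * C) := by positivity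
      linarith
    have hE1 : E ≤ 1 := by
      refine h2.trans ?_
      rw [div_le_one (by positivity)]
      have : 0 ≤ (q : ℝ) ^ 2 := by positivity
      linarith
    calc Real.exp (-(κ1 * Y / Real.log Y)) ≤ Real.exp (-(4 * (κ * q / Real.log q))) :=
          Real.exp_le_exp.2 (by linarith)
      _ = E * E * E * E := by
          rw [hE, ← Real.exp_add, ← Real.exp_add, ← Real.exp_add]
          congr 1
          ring
      _ ≤ E * E * E * 1 := mul_le_mul_of_nonneg_left hE1 (by positivity)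
      _ = (E * E) * E := by ring
      _ ≤ (b' - a) * (1 / ((q : ℝ) ^ 2 + 1)) := mul_le_mul hba h2 hE0.le hba0.le
      _ = (b' - a) / ((q : ℝ) ^ 2 + 1) := by ring
      _ ≤ (b' - a) / n := div_le_div_of_nonneg_left hba0.le hn0' hn2
  have hη0 : 0 < (b' - a) / n := by positivity
  have hnη : (n : ℝ) * ((b' - a) / n) = b' - a := by field_simp
  have hgm : Measurable fun u => ff q u - μ := (measurable_ff q).sub_const _
  have hgM : ∀ u, |ff q u - μ| ≤ 1 + (cc + (K1 + K2)) := fun u => by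
    refine (abs_sub _ _).trans ?_
    have := ff_bdd q u
    linarith
  have hp := pieces (R := K1 * r) hgm hgM (by positivity) (by linarith : a ≤ b') hn0 (by
    intro i hi
    have hi' : ((i + 1 : ℕ) : ℝ) ≤ n := by exact_mod_cast hi
    have hi0 : (0 : ℝ) ≤ i := Nat.cast_nonneg i
    have h1 : a + ((i + 1 : ℕ) : ℝ) * ((b' - a) / n) ≤ b' := by
      have := mul_le_mul_of_nonneg_right hi' hη0.le
      linarith
    have h2 : 0 ≤ (i : ℝ) * ((b' - a) / n) := by positivity
    have e : a + ((i + 1 : ℕ) : ℝ) * ((b' - a) / n) - (a + (i : ℝ) * ((b' - a) / n)) =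
        (b' - a) / n := by
      push_cast; ring
    have h3 := hμ (a + (i : ℝ) * ((b' - a) / n)) (a + ((i + 1 : ℕ) : ℝ) * ((b' - a) / n))
      (by linarith) (by linarith) (by rw [e]; exact hη2)
    rw [e] at h3
    rw [intervalIntegral.integral_sub (ii_of_bdd (measurable_ff q) (ff_bdd q) _ _)
      intervalIntegrable_const, intervalIntegral.integral_const, e, smul_eq_mul, mul_comm _ μ]
    exact h3)
  have hsplit : ∫ u in a..b', (ff q u - μ) * Real.exp u = cnt q B L - μ * L := by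
    have e : (fun u => (ff q u - μ) * Real.exp u) = fun u => ff q u * Real.exp u - μ * Real.exp u := by
      ext u; ring
    rw [e, intervalIntegral.integral_sub (ffexp_ii q _ _)
      ((Real.continuous_exp.intervalIntegrable _ _).const_mul _),
      intervalIntegral.integral_const_mul, integral_exp, hexpa, hexpb, cnt_integral q hB1 L]
    ring
  rw [hsplit, hexpa, hexpb, add_sub_cancel_left] at hp
  refine hp.trans (mul_le_mul_of_nonneg_right ?_ hL0.le)
  have hDD0 : 0 ≤ 1 + (cc + (K1 + K2)) := by positivity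
  have h1 : (1 + (cc + (K1 + K2))) * ((b' - a) / n) ≤ (1 + (cc + (K1 + K2))) * r :=
    mul_le_mul_of_nonneg_left (hη1.trans hr2) hDD0
  have h2 : 0 ≤ (K1 + K2) * r := by positivity
  linarith

end Pool.Agent.Y895.PM
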