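import Pool.Agent.Y895.PM.G3
import Pool.Agent.TH888.R.Asy

set_option autoImplicit false

/-!
# The law for random lower digits under prescribed upper digits
-/

open Filter Topology MeasureTheory Finset
open scoped Real

namespace Pool.Agent.Y895.PM

open Pool.Agent.TH888.R (Pt)

/-- **The law at almost every point.** -/
theorem pt_pm {b : ℕ} (hb : 2 ≤ b) : ∃ κ : ℝ, 0 < κ ∧ ∀ (c C : ℝ), 0 < c → 0 < C → ∀ A m : ℕ → ℕ,
    (∀ᶠ p in atTop, m p ≤ m (p + 1)) →
    (∀ᶠ p : ℕ in atTop, c * (b : ℝ) ^ p ≤ A p ∧ (A p : ℝ) ≤ C * (b : ℝ) ^ p ∧ b ^ m p ≤ A p ∧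
      (p : ℝ) - κ * p / Real.log p ≤ m p) →
    ∀ S : Set ℕ, ∀ᵐ t : ℝ, 0 ≤ t → t < 1 →
      Pt (fun p => A p + ⌊(b : ℝ) ^ m p * t⌋₊)
        (Real.exp Real.eulerMascheroniConstant / Real.log b) S := by
  obtain ⟨κ, hκ, h⟩ := sys_pm hb
  refine ⟨κ, hκ, fun c C hc hC A m hm hA S => ?_⟩
  obtain ⟨P, hP⟩ := (hm.and hA).exists_forall_of_atTop
  have hadm : Adm b κ c C A m P := by
    refine ⟨fun p hp q hq => ?_, fun p hp => (hP p hp).2.1, fun p hp => (hP p hp).2.2.1,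
      fun p hp => (hP p hp).2.2.2.1, fun p hp => (hP p hp).2.2.2.2⟩
    induction q, hq using Nat.le_induction with
    | base => exact le_rfl
    | succ q hq ih => exact ih.trans (hP q (le_trans hp hq)).1
  have hs := (h c C hc hC A m P hadm).pt (s := fun t p => A p + ⌊(b : ℝ) ^ m p * t⌋₊)
    (Eventually.of_forall fun t => ⟨0, fun p _ _ => rfl⟩) S
  unfold U01 at hs
  rw [ae_restrict_iff' measurableSet_Ico] at hs
  filter_upwards [hs] with t ht h0 h1
  exact ht ⟨h0, h1⟩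

/-- the number of free digits -/
noncomputable def mfree (κ : ℝ) (p : ℕ) : ℕ := p - ⌊κ * p / Real.log p⌋₊

/-- it is eventually monotone, with at least one prescribed digit -/
lemma mfree_spec {κ : ℝ} (hκ : 0 < κ) :
    (∀ᶠ p in atTop, mfree κ p ≤ mfree κ (p + 1)) ∧
    (∀ᶠ p : ℕ in atTop, 1 ≤ p ∧ mfree κ p ≤ p - 1 ∧ (p : ℝ) - κ * p / Real.log p ≤ mfree κ p) := by
  have hlog : ∀ᶠ p : ℕ in atTop, κ + 1 ≤ Real.log p :=
    (Real.tendsto_log_atTop.comp tendsto_natCast_atTop_atTop).eventually_ge_atTop _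
  constructor
  · filter_upwards [hlog, eventually_ge_atTop 1] with p hl hp
    have hp0 : (0 : ℝ) < p := by exact_mod_cast hp
    have hl0 : 0 < Real.log p := by linarith
    have hll : Real.log p ≤ Real.log ((p + 1 : ℕ) : ℝ) :=
      Real.log_le_log hp0 (by push_cast; linarith)
    have h1 : κ * ((p + 1 : ℕ) : ℝ) / Real.log ((p + 1 : ℕ) : ℝ) ≤ κ * p / Real.log p + 1 := by
      calc κ * ((p + 1 : ℕ) : ℝ) / Real.log ((p + 1 : ℕ) : ℝ) ≤
            κ * ((p + 1 : ℕ) : ℝ) / Real.log p := by gcongr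
        _ = κ * p / Real.log p + κ / Real.log p := by push_cast; ring
        _ ≤ κ * p / Real.log p + 1 := by
            have : κ / Real.log p ≤ 1 := by rw [div_le_one hl0]; linarith
            linarith
    have h2 : ⌊κ * ((p + 1 : ℕ) : ℝ) / Real.log ((p + 1 : ℕ) : ℝ)⌋₊ ≤ ⌊κ * p / Real.log p⌋₊ + 1 := by
      refine (Nat.floor_mono h1).trans ?_
      rw [Nat.floor_add_one (by positivity)]
    unfold mfree
    omega
  · have h1 : ∀ᶠ p : ℕ in atTop, (1 : ℝ) ≤ κ * p / Real.log p :=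
      (Pool.Agent.TH888.R.q_div_log hκ).eventually_ge_atTop _
    filter_upwards [h1, eventually_ge_atTop 1] with p h1 hp
    have h2 : 1 ≤ ⌊κ * p / Real.log p⌋₊ := by
      rw [Nat.one_le_floor_iff]
      exact h1
    refine ⟨hp, by unfold mfree; omega, ?_⟩
    unfold mfree
    have h3 : (⌊κ * p / Real.log p⌋₊ : ℝ) ≤ κ * p / Real.log p := Nat.floor_le (by linarith)
    have h4 : (p : ℝ) ≤ ((p - ⌊κ * p / Real.log p⌋₊ : ℕ) : ℝ) + (⌊κ * p / Real.log p⌋₊ : ℝ) := by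
      exact_mod_cast (by omega : p ≤ (p - ⌊κ * p / Real.log p⌋₊) + ⌊κ * p / Real.log p⌋₊)
    linarith

end Pool.Agent.Y895.PM
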